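import Mathlib

/-!
# Many codes for pair-local functions of a set which determine its minimum
-/

set_option autoImplicit false

namespace Pool.Agent.J4.H83.LE

variable {G : Type*} [AddCommGroup G] {α : Type*} [LinearOrder α]

/-- All third differences at pairwise disjoint subsets of `V` vanish. -/
def QuadOn (V : Finset α) (f : Finset α → G) : Prop :=
  ∀ C X Y : Finset α, C ⊆ V → X ⊆ V → Y ⊆ V → Disjoint C X → Disjoint C Y → Disjoint X Y →
    f (C ∪ (X ∪ Y)) + f C + f X + f Y = f (C ∪ X) + f (C ∪ Y) + f (X ∪ Y) + f ∅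

/-- On the subsets of `V`, the value of `f` determines the minimum. -/
def DecOn (V : Finset α) (f : Finset α → G) : Prop :=
  ∀ X Y : Finset α, X ⊆ V → Y ⊆ V → f X = f Y → X.min = Y.min

/-- split off the `k` smallest elements -/
theorem split_low (k : ℕ) : ∀ U : Finset α, k ≤ U.card → ∃ B U' : Finset α,
    B ∪ U' = U ∧ Disjoint B U' ∧ B.card = k ∧ ∀ b ∈ B, ∀ u ∈ U', b < u := by
  induction k with
  | zero =>
    intro U _
    exact ⟨∅, U, by simp, by simp, by simp, by simp⟩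
  | succ k ih =>
    intro U hU
    have hne : U.Nonempty := Finset.card_pos.1 (by omega)
    obtain ⟨B, U', h1, h2, h3, h4⟩ := ih (U.erase (U.min' hne)) (by
      rw [Finset.card_erase_of_mem (U.min'_mem hne)]; omega)
    have hm : ∀ x ∈ B ∪ U', U.min' hne < x := by
      intro x hx
      rw [h1] at hx
      exact Finset.min'_lt_of_mem_erase_min' U hne hx
    refine ⟨insert (U.min' hne) B, U', ?_, ?_, ?_, ?_⟩
    · rw [Finset.insert_union, h1, Finset.insert_erase (U.min'_mem hne)]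
    · rw [Finset.disjoint_insert_left]
      refine ⟨fun h => lt_irrefl _ (hm _ (Finset.mem_union_right _ h)), h2⟩
    · rw [Finset.card_insert_of_notMem, h3]
      intro h
      exact lt_irrefl _ (hm _ (Finset.mem_union_left _ h))
    · intro b hb u hu
      rcases Finset.mem_insert.1 hb with rfl | hb
      · exact hm u (Finset.mem_union_right _ hu)
      · exact h4 b hb u hu

theorem min_ne {B U' S T X Y : Finset α} (hBU : ∀ b ∈ B, ∀ u ∈ U', b < u) (hS : S ⊆ B)
    (_hT : T ⊆ B) (hST : Disjoint S T) (hX : X ⊆ U') (hY : Y ⊆ U') (hne : S.Nonempty) :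
    (S ∪ X).min ≠ (T ∪ Y).min := by
  intro h
  obtain ⟨s, hs⟩ := hne
  obtain ⟨a, ha⟩ := Finset.min_of_mem (Finset.mem_union_left X hs)
  have ha1 : a ∈ S ∪ X := Finset.mem_of_min ha
  have ha2 : a ∈ T ∪ Y := Finset.mem_of_min (h ▸ ha)
  have has : a ≤ s := Finset.min_le_of_eq (Finset.mem_union_left X hs) ha
  have haS : a ∈ S := by
    rcases Finset.mem_union.1 ha1 with h1 | h1
    · exact h1
    · exact absurd (hBU s (hS hs) a (hX h1)) (not_lt.2 has)
  rcases Finset.mem_union.1 ha2 with h2 | h2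
  · exact Finset.disjoint_left.1 hST haS h2
  · exact lt_irrefl _ (hBU a (hS haS) a (hY h2))

omit [AddCommGroup G] in
theorem pigeon (f : Finset α → G) (Q : Finset G) (hQ : ∀ X, f X ∈ Q) (r : ℕ)
    (hr : Q.card < 2 ^ r) (𝒞 : Finset (Finset α)) (c : ℕ) (hc : 𝒞.card ≤ c) (B : Finset α)
    (hB : (c + 1) * r ≤ B.card) :
    ∃ U₁ U₂ : Finset α, U₁ ⊆ B ∧ U₂ ⊆ B ∧ U₁ ≠ U₂ ∧ f U₁ = f U₂ ∧
      ∀ C ∈ 𝒞, f (C ∪ U₁) = f (C ∪ U₂) := by
  classical
  let g : Finset α → (Option {C // C ∈ 𝒞} → G) := fun U o =>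
    match o with
    | none => f U
    | some C => f (C.1 ∪ U)
  have hmaps : ∀ U ∈ B.powerset, g U ∈ Fintype.piFinset (fun _ : Option {C // C ∈ 𝒞} => Q) := by
    intro U _
    rw [Fintype.mem_piFinset]
    intro o
    cases o with
    | none => exact hQ _
    | some C => exact hQ _
  have hQ1 : 1 ≤ Q.card := Finset.card_pos.2 ⟨_, hQ ∅⟩
  have hcard : (Fintype.piFinset (fun _ : Option {C // C ∈ 𝒞} => Q)).card < B.powerset.card := by
    rw [Fintype.card_piFinset, Finset.card_powerset]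
    simp only [Finset.prod_const, Finset.card_univ, Fintype.card_option, Fintype.card_coe]
    calc Q.card ^ (𝒞.card + 1) ≤ Q.card ^ (c + 1) := Nat.pow_le_pow_right hQ1 (by omega)
      _ < (2 ^ r) ^ (c + 1) := Nat.pow_lt_pow_left hr (by omega)
      _ = 2 ^ ((c + 1) * r) := by rw [← pow_mul, mul_comm]
      _ ≤ 2 ^ B.card := Nat.pow_le_pow_right (by norm_num) hB
  obtain ⟨U₁, h1, U₂, h2, hne, heq⟩ :=
    Finset.exists_ne_map_eq_of_card_lt_of_maps_to hcard hmaps
  refine ⟨U₁, U₂, Finset.mem_powerset.1 h1, Finset.mem_powerset.1 h2, hne, ?_, ?_⟩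
  · exact congrFun heq none
  · intro C hC
    exact congrFun heq (some ⟨C, hC⟩)

/-- The main construction: a family of `2 ^ t` sets with pairwise distinct codes, on which the
interactions with the sets of `𝒞` are constant. -/
theorem family (V : Finset α) (f : Finset α → G) (hq : QuadOn V f) (hd : DecOn V f)
    (Q : Finset G) (hQ : ∀ X, f X ∈ Q) (r : ℕ) (hr : Q.card < 2 ^ r) :
    ∀ (t c : ℕ) (𝒞 : Finset (Finset α)), 𝒞.card ≤ c → (∀ C ∈ 𝒞, C ⊆ V) →
      ∀ U : Finset α, U ⊆ V → (∀ C ∈ 𝒞, Disjoint C U) → t * (c + t) * r ≤ U.card →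
      ∃ 𝓕 : Finset (Finset α), 𝓕.card = 2 ^ t ∧ (∀ X ∈ 𝓕, X ⊆ U) ∧
        (∀ X ∈ 𝓕, ∀ Y ∈ 𝓕, f X = f Y → X = Y) ∧
        ∀ C ∈ 𝒞, ∀ X ∈ 𝓕, ∀ Y ∈ 𝓕, f (C ∪ X) - f X = f (C ∪ Y) - f Y := by
  intro t
  induction t with
  | zero =>
    intro c 𝒞 _ _ U _ _ _
    refine ⟨{∅}, by simp, by simp, by simp, ?_⟩
    intro C _ X hX Y hY
    rw [Finset.mem_singleton] at hX hY
    rw [hX, hY]
  | succ t ih =>
    intro c 𝒞 hc h𝒞V U hUV h𝒞U hU
    have hcardU : (c + 1) * r ≤ U.card := by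
      have : (c + 1) * r ≤ (t + 1) * (c + (t + 1)) * r := by
        apply Nat.mul_le_mul_right
        nlinarith
      omega
    obtain ⟨B, U', hBU, hdis, hBc, hlt⟩ := split_low ((c + 1) * r) U hcardU
    have hBsub : B ⊆ U := by rw [← hBU]; exact Finset.subset_union_left
    have hU'sub : U' ⊆ U := by rw [← hBU]; exact Finset.subset_union_right
    obtain ⟨U₁, U₂, h1B, h2B, hne, heq0, heqC⟩ := pigeon f Q hQ r hr 𝒞 c hc B hBc.ge
    -- remove the common part
    set S₀ := U₁ \ U₂ with hS₀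
    set S₁ := U₂ \ U₁ with hS₁
    set D := U₁ ∩ U₂ with hD
    have hS₀B : S₀ ⊆ B := Finset.sdiff_subset.trans h1B
    have hS₁B : S₁ ⊆ B := Finset.sdiff_subset.trans h2B
    have hDB : D ⊆ B := Finset.inter_subset_left.trans h1B
    have hU1 : S₀ ∪ D = U₁ := Finset.sdiff_union_inter U₁ U₂
    have hU2 : S₁ ∪ D = U₂ := by
      rw [hS₁, hD, Finset.inter_comm]; exact Finset.sdiff_union_inter U₂ U₁
    have hS01 : Disjoint S₀ S₁ := by
      rw [Finset.disjoint_left]
      intro x hx hx'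
      exact (Finset.mem_sdiff.1 hx').2 (Finset.mem_sdiff.1 hx).1
    have hS0D : Disjoint S₀ D := by
      rw [Finset.disjoint_left]
      intro x hx hx'
      exact (Finset.mem_sdiff.1 hx).2 (Finset.mem_inter.1 hx').2
    have hS1D : Disjoint S₁ D := by
      rw [Finset.disjoint_left]
      intro x hx hx'
      exact (Finset.mem_sdiff.1 hx).2 (Finset.mem_inter.1 hx').1
    have hneS : S₀.Nonempty ∨ S₁.Nonempty := by
      by_contra hcon
      push Not at hcon
      obtain ⟨ha, hb⟩ := hcon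
      apply hne
      rw [← hU1, ← hU2, ha, hb]
    have hBV : B ⊆ V := hBsub.trans hUV
    -- the interaction of `C` with `S₀` and `S₁` is the same
    have hint : ∀ C ∈ 𝒞, f (C ∪ S₀) - f S₀ = f (C ∪ S₁) - f S₁ := by
      intro C hC
      have hCB : Disjoint C B := (h𝒞U C hC).mono_right hBsub
      have e0 := hq C S₀ D (h𝒞V C hC) (hS₀B.trans hBV) (hDB.trans hBV)
        (hCB.mono_right hS₀B) (hCB.mono_right hDB) hS0D
      have e1 := hq C S₁ D (h𝒞V C hC) (hS₁B.trans hBV) (hDB.trans hBV)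
        (hCB.mono_right hS₁B) (hCB.mono_right hDB) hS1D
      rw [hU1] at e0
      rw [hU2] at e1
      have e2 := heqC C hC
      rw [sub_eq_sub_iff_add_eq_add]
      -- f(C∪S₀) = f(C∪U₁)+f C+f S₀+f D - f(C∪D) - f U₁ - f ∅
      have e0' : f (C ∪ S₀) = f (C ∪ U₁) + f C + f S₀ + f D - f (C ∪ D) - f U₁ - f ∅ := by
        rw [e0]; abel
      have e1' : f (C ∪ S₁) = f (C ∪ U₂) + f C + f S₁ + f D - f (C ∪ D) - f U₂ - f ∅ := by
        rw [e1]; abel
      rw [e0', e1', e2, heq0]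
      abel
    -- recursion
    let 𝒞' : Finset (Finset α) := insert S₀ (insert S₁ 𝒞)
    have hc' : 𝒞'.card ≤ c + 2 := by
      have a1 := Finset.card_insert_le S₀ (insert S₁ 𝒞)
      have a2 := Finset.card_insert_le S₁ 𝒞
      show (insert S₀ (insert S₁ 𝒞)).card ≤ c + 2
      omega
    have hmem' : ∀ C ∈ 𝒞', C = S₀ ∨ C = S₁ ∨ C ∈ 𝒞 := by
      intro C hC
      simpa [𝒞'] using hC
    have h𝒞V' : ∀ C ∈ 𝒞', C ⊆ V := by
      intro C hC
      rcases hmem' C hC with rfl | rfl | h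
      · exact hS₀B.trans hBV
      · exact hS₁B.trans hBV
      · exact h𝒞V C h
    have h𝒞U' : ∀ C ∈ 𝒞', Disjoint C U' := by
      intro C hC
      rcases hmem' C hC with rfl | rfl | h
      · exact hdis.mono_left hS₀B
      · exact hdis.mono_left hS₁B
      · exact (h𝒞U C h).mono_right hU'sub
    have hcardU' : t * ((c + 2) + t) * r ≤ U'.card := by
      have h5 : B.card + U'.card = U.card := by
        rw [← hBU, Finset.card_union_of_disjoint hdis]
      have h6 : (t + 1) * (c + (t + 1)) * r = (c + 1) * r + t * ((c + 2) + t) * r := by ring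
      omega
    obtain ⟨𝓕, hcF, hsubF, hinjF, hconF⟩ := ih (c + 2) 𝒞' hc' h𝒞V' U' (hU'sub.trans hUV)
      h𝒞U' hcardU'
    have hS0mem : S₀ ∈ 𝒞' := Finset.mem_insert_self _ _
    have hS1mem : S₁ ∈ 𝒞' := Finset.mem_insert_of_mem (Finset.mem_insert_self _ _)
    have hmemC : ∀ C ∈ 𝒞, C ∈ 𝒞' := fun C hC =>
      Finset.mem_insert_of_mem (Finset.mem_insert_of_mem hC)
    -- values on the two halves
    have inj0 : ∀ S ∈ 𝒞', ∀ X ∈ 𝓕, ∀ Y ∈ 𝓕, f (S ∪ X) = f (S ∪ Y) → X = Y := by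
      intro S hS X hX Y hY h
      have h7 := hconF S hS X hX Y hY
      rw [h] at h7
      exact hinjF X hX Y hY (sub_right_injective h7)
    have cross : ∀ X ∈ 𝓕, ∀ Y ∈ 𝓕, f (S₀ ∪ X) ≠ f (S₁ ∪ Y) := by
      intro X hX Y hY h
      have hXU := hsubF X hX
      have hYU := hsubF Y hY
      have h8 := hd (S₀ ∪ X) (S₁ ∪ Y)
        (Finset.union_subset (hS₀B.trans hBV) (hXU.trans (hU'sub.trans hUV)))
        (Finset.union_subset (hS₁B.trans hBV) (hYU.trans (hU'sub.trans hUV))) h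
      rcases hneS with hn | hn
      · exact min_ne hlt hS₀B hS₁B hS01 hXU hYU hn h8
      · exact min_ne hlt hS₁B hS₀B hS01.symm hYU hXU hn h8.symm
    refine ⟨𝓕.image (fun X => S₀ ∪ X) ∪ 𝓕.image (fun X => S₁ ∪ X), ?_, ?_, ?_, ?_⟩
    · rw [Finset.card_union_of_disjoint, Finset.card_image_of_injOn, Finset.card_image_of_injOn,
        hcF]
      · ring
      · intro X hX Y hY h
        exact inj0 S₁ hS1mem X hX Y hY (by simpa using congrArg f h)
      · intro X hX Y hY h
        exact inj0 S₀ hS0mem X hX Y hY (by simpa using congrArg f h)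
      · rw [Finset.disjoint_left]
        intro Z hZ hZ'
        rw [Finset.mem_image] at hZ hZ'
        obtain ⟨X, hX, rfl⟩ := hZ
        obtain ⟨Y, hY, h9⟩ := hZ'
        exact cross X hX Y hY (congrArg f h9.symm)
    · intro Z hZ
      rw [Finset.mem_union, Finset.mem_image, Finset.mem_image] at hZ
      rcases hZ with ⟨X, hX, rfl⟩ | ⟨X, hX, rfl⟩
      · exact Finset.union_subset (hS₀B.trans hBsub) ((hsubF X hX).trans hU'sub)
      · exact Finset.union_subset (hS₁B.trans hBsub) ((hsubF X hX).trans hU'sub)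
    · intro Z hZ W hW h
      rw [Finset.mem_union, Finset.mem_image, Finset.mem_image] at hZ hW
      rcases hZ with ⟨X, hX, rfl⟩ | ⟨X, hX, rfl⟩ <;> rcases hW with ⟨Y, hY, rfl⟩ | ⟨Y, hY, rfl⟩
      · rw [inj0 S₀ hS0mem X hX Y hY h]
      · exact absurd h (cross X hX Y hY)
      · exact absurd h.symm (cross Y hY X hX)
      · rw [inj0 S₁ hS1mem X hX Y hY h]
    · intro C hC
      have hval : ∀ S : Finset α, (S = S₀ ∨ S = S₁) → ∀ X ∈ 𝓕,
          f (C ∪ (S ∪ X)) - f (S ∪ X) = (f (C ∪ S) - f S) + (f (C ∪ X) - f X) - f C + f ∅ := by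
        intro S hS X hX
        have hSB : S ⊆ B := by rcases hS with rfl | rfl <;> assumption
        have hSX : Disjoint S X := (hdis.mono_left hSB).mono_right (hsubF X hX)
        have h10 := hq C S X (h𝒞V C hC) (hSB.trans hBV)
          ((hsubF X hX).trans (hU'sub.trans hUV))
          ((h𝒞U C hC).mono_right (hSB.trans hBsub))
          ((h𝒞U C hC).mono_right ((hsubF X hX).trans hU'sub)) hSX
        have h11 : f (C ∪ (S ∪ X)) = f (C ∪ S) + f (C ∪ X) + f (S ∪ X) + f ∅ - f C - f S - f X := by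
          rw [← h10]; abel
        rw [h11]; abel
      have hval2 : ∀ Z ∈ 𝓕.image (fun X => S₀ ∪ X) ∪ 𝓕.image (fun X => S₁ ∪ X), ∃ X ∈ 𝓕,
          f (C ∪ Z) - f Z = (f (C ∪ S₀) - f S₀) + (f (C ∪ X) - f X) - f C + f ∅ := by
        intro Z hZ
        rw [Finset.mem_union, Finset.mem_image, Finset.mem_image] at hZ
        rcases hZ with ⟨X, hX, rfl⟩ | ⟨X, hX, rfl⟩
        · exact ⟨X, hX, hval S₀ (Or.inl rfl) X hX⟩
        · refine ⟨X, hX, ?_⟩
          rw [hval S₁ (Or.inr rfl) X hX, ← hint C hC]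
      intro Z hZ W hW
      obtain ⟨X, hX, hZX⟩ := hval2 Z hZ
      obtain ⟨Y, hY, hWY⟩ := hval2 W hW
      rw [hZX, hWY, hconF C (hmemC C hC) X hX Y hY]

/-- **Codes of pair-local functions.** -/
theorem quad_codes (V : Finset α) (f : Finset α → G) (hq : QuadOn V f) (hd : DecOn V f)
    (Q : Finset G) (hQ : ∀ X, f X ∈ Q) (r : ℕ) (hV : r ^ 3 ≤ V.card) : 2 ^ r ≤ Q.card := by
  classical
  by_contra hcon
  push Not at hcon
  obtain ⟨𝓕, h1, _, h3, _⟩ := family V f hq hd Q hQ r hcon r 0 ∅ (by simp) (by simp) V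
    (Finset.Subset.refl V) (by simp) (by
      have : r * (0 + r) * r = r ^ 3 := by ring
      omega)
  have h4 : (𝓕.image f).card = 2 ^ r := by
    rw [Finset.card_image_of_injOn, h1]
    intro X hX Y hY h
    exact h3 X hX Y hY h
  have h5 : 𝓕.image f ⊆ Q := by
    intro y hy
    rw [Finset.mem_image] at hy
    obtain ⟨X, _, rfl⟩ := hy
    exact hQ X
  have := Finset.card_le_card h5
  omega

/-- **Codes of additive functions.** -/
theorem add_codes (V : Finset α) (f : Finset α → G)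
    (hadd : ∀ X Y : Finset α, X ⊆ V → Y ⊆ V → Disjoint X Y → f (X ∪ Y) + f ∅ = f X + f Y)
    (hd : DecOn V f) (Q : Finset G) (hQ : ∀ X, f X ∈ Q) : 2 ^ V.card ≤ Q.card := by
  classical
  have hinj : ∀ X ∈ V.powerset, ∀ Y ∈ V.powerset, f X = f Y → X = Y := by
    intro X hX Y hY h
    rw [Finset.mem_powerset] at hX hY
    have e1 := hadd (X \ Y) (X ∩ Y) (Finset.sdiff_subset.trans hX)
      (Finset.inter_subset_left.trans hX) (Finset.disjoint_sdiff_inter X Y)
    have e2 := hadd (Y \ X) (Y ∩ X) (Finset.sdiff_subset.trans hY)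
      (Finset.inter_subset_left.trans hY) (Finset.disjoint_sdiff_inter Y X)
    rw [Finset.sdiff_union_inter] at e1 e2
    rw [Finset.inter_comm Y X] at e2
    have e3 : f (X \ Y) = f (Y \ X) := by
      have : f (X \ Y) + f (X ∩ Y) = f (Y \ X) + f (X ∩ Y) := by rw [← e1, ← e2, h]
      exact add_right_cancel this
    have e4 := hd _ _ (Finset.sdiff_subset.trans hX) (Finset.sdiff_subset.trans hY) e3
    have hXY : X \ Y = ∅ := by
      by_contra hne
      obtain ⟨x, hx⟩ := Finset.nonempty_iff_ne_empty.2 hne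
      obtain ⟨a, ha⟩ := Finset.min_of_mem hx
      have m1 := Finset.mem_of_min ha
      have m2 := Finset.mem_of_min (e4 ▸ ha)
      exact (Finset.mem_sdiff.1 m2).2 (Finset.mem_sdiff.1 m1).1
    have hYX : Y \ X = ∅ := by
      by_contra hne
      obtain ⟨x, hx⟩ := Finset.nonempty_iff_ne_empty.2 hne
      obtain ⟨a, ha⟩ := Finset.min_of_mem hx
      have m1 := Finset.mem_of_min ha
      have m2 := Finset.mem_of_min (e4.symm ▸ ha)
      exact (Finset.mem_sdiff.1 m2).2 (Finset.mem_sdiff.1 m1).1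
    exact Finset.Subset.antisymm (Finset.sdiff_eq_empty_iff_subset.1 hXY)
      (Finset.sdiff_eq_empty_iff_subset.1 hYX)
  calc 2 ^ V.card = V.powerset.card := (Finset.card_powerset V).symm
    _ = (V.powerset.image f).card := (Finset.card_image_of_injOn (by
        intro X hX Y hY h
        exact hinj X hX Y hY h)).symm
    _ ≤ Q.card := Finset.card_le_card (by
        intro y hy
        rw [Finset.mem_image] at hy
        obtain ⟨X, _, rfl⟩ := hy
        exact hQ X)

end Pool.Agent.J4.H83.LE
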