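import Mathlib
import Pool.Agent.N578.Enc.Main
import Pool.Agent.J4.H83.LE.Core

/-!
# Local encodings of the (min,+) product
-/

set_option autoImplicit false

open Pool.Agent.N578.Enc

namespace Pool.Agent.J4.H83.LE

variable {G : Type*} [AddCommGroup G] {m n p : ℕ}

/-- Term `l` depends on `A` through the columns in `S l` only (and on `B` arbitrarily). -/
def LocalTerms {ι : Type*} (S : ι → Finset (Fin n))
    (F : ι → (Fin m → Fin n → ℕ) → (Fin n → Fin p → ℕ) → G) : Prop :=
  ∀ l A A' B, (∀ i, ∀ k ∈ S l, A i k = A' i k) → F l A B = F l A' B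

/-- rank of `k` in `K` -/
def rk (K : Finset (Fin n)) (k : Fin n) : ℕ := (K.filter (fun x => x < k)).card

theorem rk_lt {K : Finset (Fin n)} {k k' : Fin n} (hk : k ∈ K) (h : k < k') : rk K k < rk K k' := by
  unfold rk
  apply Finset.card_lt_card
  rw [Finset.ssubset_iff_of_subset]
  · exact ⟨k, by simp [hk, h], by simp⟩
  · intro x hx
    rw [Finset.mem_filter] at hx ⊢
    exact ⟨hx.1, hx.2.trans h⟩

theorem rk_lt_card {K : Finset (Fin n)} {k : Fin n} (hk : k ∈ K) : rk K k < K.card := by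
  unfold rk
  apply Finset.card_lt_card
  rw [Finset.ssubset_iff_of_subset (Finset.filter_subset _ _)]
  exact ⟨k, hk, by simp⟩

/-- the matrix of the set `T`: the columns in `T` carry the value of their rank -/
def mat (m : ℕ) (v : ℕ → ℕ) (K T : Finset (Fin n)) : Fin m → Fin n → ℕ :=
  fun _ k => if k ∈ T then v (rk K k) else v K.card

/-- value attached to the minimum of `T` -/
def minIdx (K T : Finset (Fin n)) : ℕ :=
  if h : T.Nonempty then rk K (T.min' h) else K.card

theorem v_lt {α β : ℝ} (hα : 1 ≤ α) (hβ : 0 ≤ β) {L : ℕ} {v : ℕ → ℕ}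
    (hv : ∀ l, l < L → α * (v l : ℝ) + β < (v (l + 1) : ℝ)) {a b : ℕ} (hab : a < b) (hb : b ≤ L) :
    α * (v a : ℝ) + β < v b := by
  obtain ⟨d, rfl⟩ : ∃ d, b = a + 1 + d := ⟨b - (a + 1), by omega⟩
  clear hab
  induction d with
  | zero => exact hv a (by omega)
  | succ d ih =>
    have h1 := ih (by omega)
    have h2 := hv (a + 1 + d) (by omega)
    have h3 : (0 : ℝ) ≤ v (a + 1 + d) := Nat.cast_nonneg _
    have h4 : (v (a + 1 + d) : ℝ) ≤ α * v (a + 1 + d) + β := by nlinarith
    calc α * (v a : ℝ) + β < v (a + 1 + d) := h1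
      _ ≤ α * v (a + 1 + d) + β := h4
      _ < v (a + 1 + d + 1) := h2
      _ = v (a + 1 + (d + 1)) := by norm_num [add_assoc]

theorem v_mono {α β : ℝ} (hα : 1 ≤ α) (hβ : 0 ≤ β) {L : ℕ} {v : ℕ → ℕ}
    (hv : ∀ l, l < L → α * (v l : ℝ) + β < (v (l + 1) : ℝ)) {a b : ℕ} (hab : a ≤ b) (hb : b ≤ L) :
    v a ≤ v b := by
  rcases hab.eq_or_lt with rfl | h
  · exact le_rfl
  · have h1 := v_lt hα hβ hv h hb
    have h3 : (0 : ℝ) ≤ v a := Nat.cast_nonneg _
    have h4 : (v a : ℝ) ≤ α * v a + β := by nlinarith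
    exact_mod_cast (h4.trans h1.le)

theorem isMin_mat {v : ℕ → ℕ} {K T : Finset (Fin n)} (hn : 0 < n) (hT : T ⊆ K)
    (hv : ∀ a b, a ≤ b → b ≤ K.card → v a ≤ v b) (i : Fin m) (j : Fin p) :
    IsMinPlus (mat m v K T) (fun (_ : Fin n) (_ : Fin p) => 0) i j (v (minIdx K T)) := by
  unfold IsMinPlus
  constructor
  · by_cases h : T.Nonempty
    · refine ⟨T.min' h, ?_⟩
      simp [mat, minIdx, h, T.min'_mem h]
    · refine ⟨⟨0, hn⟩, ?_⟩
      rw [Finset.not_nonempty_iff_eq_empty] at h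
      simp [mat, minIdx, h]
  · rintro _ ⟨k, rfl⟩
    simp only [mat, add_zero]
    by_cases h : T.Nonempty
    · have hmin : minIdx K T = rk K (T.min' h) := by simp [minIdx, h]
      rw [hmin]
      split_ifs with hk
      · apply hv
        · rcases (T.min'_le k hk).eq_or_lt with h1 | h1
          · rw [h1]
          · exact (rk_lt (hT (T.min'_mem h)) h1).le
        · exact (rk_lt_card (hT hk)).le
      · exact hv _ _ (rk_lt_card (hT (T.min'_mem h))).le le_rfl
    · rw [Finset.not_nonempty_iff_eq_empty] at h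
      simp [minIdx, h]

theorem min_eq_of_idx {K X Y : Finset (Fin n)} (hX : X ⊆ K) (hY : Y ⊆ K)
    (h : minIdx K X = minIdx K Y) : X.min = Y.min := by
  unfold minIdx at h
  by_cases hx : X.Nonempty <;> by_cases hy : Y.Nonempty
  · simp only [hx, hy, dite_true] at h
    have hmx := hX (X.min'_mem hx)
    have hmy := hY (Y.min'_mem hy)
    have : X.min' hx = Y.min' hy := by
      rcases lt_trichotomy (X.min' hx) (Y.min' hy) with h1 | h1 | h1
      · exact absurd h (rk_lt hmx h1).ne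
      · exact h1
      · exact absurd h.symm (rk_lt hmy h1).ne
    rw [← Finset.coe_min' hx, ← Finset.coe_min' hy, this]
  · simp only [hx, hy, dite_true, dite_false] at h
    exact absurd h (rk_lt_card (hX (X.min'_mem hx))).ne
  · simp only [hx, hy, dite_true, dite_false] at h
    exact absurd h.symm (rk_lt_card (hY (Y.min'_mem hy))).ne
  · rw [Finset.not_nonempty_iff_eq_empty] at hx hy
    rw [hx, hy]

theorem mat_bounded {v : ℕ → ℕ} {K T : Finset (Fin n)} {M : ℕ} (hT : T ⊆ K)
    (hv : ∀ a b, a ≤ b → b ≤ K.card → v a ≤ v b) (hM : v K.card ≤ M) :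
    Bounded M (mat m v K T) (fun (_ : Fin n) (_ : Fin p) => 0) := by
  refine ⟨?_, fun _ _ => Nat.zero_le _⟩
  intro i k
  unfold mat
  split_ifs with h
  · exact (hv _ _ (rk_lt_card (hT h)).le le_rfl).trans hM
  · exact hM

/-- the code of the set `T` -/
def setCode {ι : Type*} [Fintype ι] (F : ι → (Fin m → Fin n → ℕ) → (Fin n → Fin p → ℕ) → G)
    (v : ℕ → ℕ) (K T : Finset (Fin n)) : G :=
  ∑ l, F l (mat m v K T) (fun _ _ => 0)

omit [AddCommGroup G] in
theorem term_eq {ι : Type*} {S : ι → Finset (Fin n)}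
    {F : ι → (Fin m → Fin n → ℕ) → (Fin n → Fin p → ℕ) → G} (hF : LocalTerms S F) (v : ℕ → ℕ)
    (K : Finset (Fin n)) (l : ι) {T T' : Finset (Fin n)} (h : ∀ k ∈ S l, (k ∈ T ↔ k ∈ T')) :
    F l (mat m v K T) (fun _ _ => 0) = F l (mat m v K T') (fun _ _ => 0) := by
  apply hF
  intro i k hk
  unfold mat
  simp only [h k hk]

theorem setCode_quad {ι : Type*} [Fintype ι] {S : ι → Finset (Fin n)}
    {F : ι → (Fin m → Fin n → ℕ) → (Fin n → Fin p → ℕ) → G} (hF : LocalTerms S F) (v : ℕ → ℕ)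
    (K : Finset (Fin n)) (hK : ∀ l, (S l ∩ K).card ≤ 2) : QuadOn K (setCode F v K) := by
  intro C X Y hC hX hY hCX hCY hXY
  unfold setCode
  rw [← Finset.sum_add_distrib, ← Finset.sum_add_distrib, ← Finset.sum_add_distrib,
    ← Finset.sum_add_distrib, ← Finset.sum_add_distrib, ← Finset.sum_add_distrib]
  refine Finset.sum_congr rfl fun l _ => ?_
  -- one of the three sets misses `S l`
  have hmiss : (∀ k ∈ S l, k ∉ C) ∨ (∀ k ∈ S l, k ∉ X) ∨ (∀ k ∈ S l, k ∉ Y) := by
    by_contra hcon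
    push Not at hcon
    obtain ⟨⟨a, ha, haC⟩, ⟨b, hb, hbX⟩, ⟨c, hc, hcY⟩⟩ := hcon
    have hab : a ≠ b := fun h => Finset.disjoint_left.1 hCX haC (h ▸ hbX)
    have hac : a ≠ c := fun h => Finset.disjoint_left.1 hCY haC (h ▸ hcY)
    have hbc : b ≠ c := fun h => Finset.disjoint_left.1 hXY hbX (h ▸ hcY)
    have hsub : ({a, b, c} : Finset (Fin n)) ⊆ S l ∩ K := by
      intro x hx
      simp only [Finset.mem_insert, Finset.mem_singleton] at hx
      rw [Finset.mem_inter]
      rcases hx with rfl | rfl | rfl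
      · exact ⟨ha, hC haC⟩
      · exact ⟨hb, hX hbX⟩
      · exact ⟨hc, hY hcY⟩
    have h3 : ({a, b, c} : Finset (Fin n)).card = 3 := by
      rw [Finset.card_insert_of_notMem, Finset.card_insert_of_notMem, Finset.card_singleton]
      · simpa using hbc
      · simp only [Finset.mem_insert, Finset.mem_singleton, not_or]
        exact ⟨hab, hac⟩
    have := Finset.card_le_card hsub
    have := hK l
    omega
  have te := fun (T T' : Finset (Fin n)) (h : ∀ k ∈ S l, (k ∈ T ↔ k ∈ T')) =>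
    term_eq (p := p) hF v K l h
  rcases hmiss with h | h | h
  · rw [te (C ∪ (X ∪ Y)) (X ∪ Y) (fun k hk => by simp [h k hk]),
      te (C ∪ X) X (fun k hk => by simp [h k hk]), te (C ∪ Y) Y (fun k hk => by simp [h k hk]),
      te C ∅ (fun k hk => by simp [h k hk])]
    abel
  · rw [te (C ∪ (X ∪ Y)) (C ∪ Y) (fun k hk => by simp [h k hk]),
      te (C ∪ X) C (fun k hk => by simp [h k hk]), te (X ∪ Y) Y (fun k hk => by simp [h k hk]),
      te X ∅ (fun k hk => by simp [h k hk])]
    abel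
  · rw [te (C ∪ (X ∪ Y)) (C ∪ X) (fun k hk => by simp [h k hk]),
      te (C ∪ Y) C (fun k hk => by simp [h k hk]), te (X ∪ Y) X (fun k hk => by simp [h k hk]),
      te Y ∅ (fun k hk => by simp [h k hk])]

theorem setCode_add {ι : Type*} [Fintype ι] {S : ι → Finset (Fin n)}
    {F : ι → (Fin m → Fin n → ℕ) → (Fin n → Fin p → ℕ) → G} (hF : LocalTerms S F) (v : ℕ → ℕ)
    (K : Finset (Fin n)) (hK : ∀ l, (S l ∩ K).card ≤ 1) (X Y : Finset (Fin n)) (hX : X ⊆ K)
    (hY : Y ⊆ K) (hXY : Disjoint X Y) :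
    setCode F v K (X ∪ Y) + setCode F v K ∅ = setCode F v K X + setCode F v K Y := by
  unfold setCode
  rw [← Finset.sum_add_distrib, ← Finset.sum_add_distrib]
  refine Finset.sum_congr rfl fun l _ => ?_
  have hmiss : (∀ k ∈ S l, k ∉ X) ∨ (∀ k ∈ S l, k ∉ Y) := by
    by_contra hcon
    push Not at hcon
    obtain ⟨⟨b, hb, hbX⟩, ⟨c, hc, hcY⟩⟩ := hcon
    have hbc : b ≠ c := fun h => Finset.disjoint_left.1 hXY hbX (h ▸ hcY)
    have := (Finset.card_le_one.1 (hK l)) b (Finset.mem_inter.2 ⟨hb, hX hbX⟩) c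
      (Finset.mem_inter.2 ⟨hc, hY hcY⟩)
    exact hbc this
  have te := fun (T T' : Finset (Fin n)) (h : ∀ k ∈ S l, (k ∈ T ↔ k ∈ T')) =>
    term_eq (p := p) hF v K l h
  rcases hmiss with h | h
  · rw [te (X ∪ Y) Y (fun k hk => by simp [h k hk]), te X ∅ (fun k hk => by simp [h k hk]),
      add_comm]
  · rw [te (X ∪ Y) X (fun k hk => by simp [h k hk]), te Y ∅ (fun k hk => by simp [h k hk])]

/-- decoding the minimum of a set -/
theorem setCode_dec {ι : Type*} [Fintype ι]
    {F : ι → (Fin m → Fin n → ℕ) → (Fin n → Fin p → ℕ) → G} {M : ℕ} {i : Fin m} {j : Fin p}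
    {α β : ℝ} (hα : 1 ≤ α) (hβ : 0 ≤ β) (D : G → ℝ)
    (hD : ∀ A B, Bounded M A B → ∀ c, IsMinPlus A B i j c →
      (c : ℝ) ≤ D (∑ l, F l A B) ∧ D (∑ l, F l A B) ≤ α * c + β)
    (K : Finset (Fin n)) {v : ℕ → ℕ}
    (hv : ∀ l, l < K.card → α * (v l : ℝ) + β < (v (l + 1) : ℝ)) (hM : v K.card ≤ M) :
    DecOn K (setCode F v K) := by
  intro X Y hX hY hXY
  by_cases hn : 0 < n
  swap
  · have : X = Y := by
      ext k
      exact absurd k.pos hn
    rw [this]
  have hmono : ∀ a b, a ≤ b → b ≤ K.card → v a ≤ v b := fun a b h1 h2 => v_mono hα hβ hv h1 h2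
  have key : ∀ T : Finset (Fin n), T ⊆ K →
      (v (minIdx K T) : ℝ) ≤ D (setCode F v K T) ∧
        D (setCode F v K T) ≤ α * (v (minIdx K T) : ℝ) + β := by
    intro T hT
    exact hD _ _ (mat_bounded hT hmono hM) _ (isMin_mat hn hT hmono i j)
  have hle : ∀ T : Finset (Fin n), T ⊆ K → minIdx K T ≤ K.card := by
    intro T hT
    unfold minIdx
    split_ifs with h
    · exact (rk_lt_card (hT (T.min'_mem h))).le
    · exact le_rfl
  apply min_eq_of_idx hX hY
  rcases lt_trichotomy (minIdx K X) (minIdx K Y) with h | h | h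
  · have h1 := v_lt hα hβ hv h (hle Y hY)
    have h2 := (key X hX).2
    have h3 := (key Y hY).1
    rw [hXY] at h2
    linarith
  · exact h
  · have h1 := v_lt hα hβ hv h (hle X hX)
    have h2 := (key Y hY).2
    have h3 := (key X hX).1
    rw [hXY] at h3
    linarith

/-- Terms which read at most two columns of `K`. -/
theorem pair_encoding {ι : Type*} [Fintype ι] {S : ι → Finset (Fin n)}
    {F : ι → (Fin m → Fin n → ℕ) → (Fin n → Fin p → ℕ) → G} (hF : LocalTerms S F)
    {M r : ℕ} {i : Fin m} {j : Fin p}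
    {α β : ℝ} (hα : 1 ≤ α) (hβ : 0 ≤ β) (D : G → ℝ)
    (hD : ∀ A B, Bounded M A B → ∀ c, IsMinPlus A B i j c →
      (c : ℝ) ≤ D (∑ l, F l A B) ∧ D (∑ l, F l A B) ≤ α * c + β)
    (K : Finset (Fin n)) (hK : ∀ l, (S l ∩ K).card ≤ 2) (hsc : Scales α β K.card M)
    (hr : r ^ 3 ≤ K.card) (Q : Finset G) (hQ : ∀ A B, Bounded M A B → ∑ l, F l A B ∈ Q) :
    2 ^ r ≤ Q.card := by
  classical
  obtain ⟨v, hv, hM⟩ := hsc
  have hmono : ∀ a b, a ≤ b → b ≤ K.card → v a ≤ v b := fun a b h1 h2 => v_mono hα hβ hv h1 h2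
  -- replace the code outside of `K` by the code of the trace
  let f : Finset (Fin n) → G := fun T => setCode F v K (T ∩ K)
  have hfT : ∀ T ⊆ K, f T = setCode F v K T := by
    intro T hT
    show setCode F v K (T ∩ K) = _
    rw [Finset.inter_eq_left.2 hT]
  have hq : QuadOn K f := by
    intro C X Y hC hX hY h1 h2 h3
    rw [hfT _ (Finset.union_subset hC (Finset.union_subset hX hY)), hfT _ hC, hfT _ hX, hfT _ hY,
      hfT _ (Finset.union_subset hC hX), hfT _ (Finset.union_subset hC hY),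
      hfT _ (Finset.union_subset hX hY), hfT _ (Finset.empty_subset K)]
    exact setCode_quad hF v K hK C X Y hC hX hY h1 h2 h3
  have hd : DecOn K f := by
    intro X Y hX hY h
    rw [hfT _ hX, hfT _ hY] at h
    exact setCode_dec hα hβ D hD K hv hM X Y hX hY h
  refine quad_codes K f hq hd Q ?_ r hr
  intro X
  exact hQ _ _ (mat_bounded Finset.inter_subset_right hmono hM)

/-- decoding the minimum of a set from the decisions -/
theorem setCode_dec' {ι : Type*} [Fintype ι] {Y Z : Type*} [AddCommGroup Y] [AddCommGroup Z]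
    {f : ι → (Fin m → Fin n → ℕ) → G} (π : G →+ Y →+ Z) (g : (Fin n → Fin p → ℕ) → Y)
    {M : ℕ} {i : Fin m} {j : Fin p} (D : Z → Prop)
    (hD : ∀ A B, Bounded M A B → ((∃ k, A i k + B k j < M) ↔ D (π (∑ l, f l A) (g B))))
    (K : Finset (Fin n)) (hM : K.card ≤ M) :
    DecOn K (setCode (fun l (A : Fin m → Fin n → ℕ) (_ : Fin n → Fin p → ℕ) => f l A) id K) := by
  intro X X' hX hX' hXX
  by_cases hn : 0 < n
  swap
  · have : X = X' := by
      ext k
      exact absurd k.pos hn
    rw [this]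
  have hmono : ∀ a b : ℕ, a ≤ b → b ≤ K.card → id a ≤ id b := fun a b h1 _ => h1
  have key : ∀ T : Finset (Fin n), T ⊆ K → ∀ τ, τ ≤ M →
      (minIdx K T < τ ↔ D (π (setCode (fun l (A : Fin m → Fin n → ℕ)
        (_ : Fin n → Fin p → ℕ) => f l A) id K T) (g (fun _ _ => M - τ)))) := by
    intro T hT τ hτ
    have hb := mat_bounded (m := m) (p := p) (M := M) hT hmono hM
    have hb' : Bounded M (mat m id K T) (fun (_ : Fin n) (_ : Fin p) => M - τ) :=
      ⟨hb.1, fun _ _ => Nat.sub_le _ _⟩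
    have h1 := hD _ _ hb'
    have h2 : (π (setCode (fun l (A : Fin m → Fin n → ℕ)
        (_ : Fin n → Fin p → ℕ) => f l A) id K T) (g (fun _ _ => M - τ))) =
        (π (∑ l, f l (mat m id K T)) (g (fun _ _ => M - τ))) := rfl
    rw [h2, ← h1]
    have h3 := isMin_mat (m := m) (p := p) hn hT hmono i j
    obtain ⟨⟨k, hk⟩, hle⟩ := h3
    constructor
    · intro h
      refine ⟨k, ?_⟩
      simp only [add_zero, id] at hk
      rw [hk]
      omega
    · rintro ⟨k', hk'⟩
      have h4 := hle ⟨k', rfl⟩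
      simp only [add_zero, id] at h4
      omega
  have hle : ∀ T : Finset (Fin n), T ⊆ K → minIdx K T ≤ K.card := by
    intro T hT
    unfold minIdx
    split_ifs with h
    · exact (rk_lt_card (hT (T.min'_mem h))).le
    · exact le_rfl
  apply min_eq_of_idx hX hX'
  rcases lt_trichotomy (minIdx K X) (minIdx K X') with h | h | h
  · have h1 := (key X hX _ ((hle X' hX').trans hM)).1 h
    rw [hXX] at h1
    exact absurd ((key X' hX' _ ((hle X' hX').trans hM)).2 h1) (lt_irrefl _)
  · exact h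
  · have h1 := (key X' hX' _ ((hle X hX).trans hM)).1 h
    rw [← hXX] at h1
    exact absurd ((key X hX _ ((hle X hX).trans hM)).2 h1) (lt_irrefl _)

/-- Terms of a code of the first matrix which read at most two columns of `K`; decisions. -/
theorem pair_decision {ι : Type*} [Fintype ι] {Y Z : Type*} [AddCommGroup Y] [AddCommGroup Z]
    {S : ι → Finset (Fin n)} {f : ι → (Fin m → Fin n → ℕ) → G}
    (hf : ∀ l A A', (∀ i, ∀ k ∈ S l, A i k = A' i k) → f l A = f l A')
    (π : G →+ Y →+ Z) (g : (Fin n → Fin p → ℕ) → Y)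
    {M r : ℕ} {i : Fin m} {j : Fin p} (D : Z → Prop)
    (hD : ∀ A B, Bounded M A B → ((∃ k, A i k + B k j < M) ↔ D (π (∑ l, f l A) (g B))))
    (K : Finset (Fin n)) (hK : ∀ l, (S l ∩ K).card ≤ 2) (hM : K.card ≤ M)
    (hr : r ^ 3 ≤ K.card) (Q : Finset G) (hQ : ∀ A : Fin m → Fin n → ℕ, (∀ i k, A i k ≤ M) →
      ∑ l, f l A ∈ Q) :
    2 ^ r ≤ Q.card := by
  classical
  have hmono : ∀ a b : ℕ, a ≤ b → b ≤ K.card → id a ≤ id b := fun a b h1 _ => h1
  let F : ι → (Fin m → Fin n → ℕ) → (Fin n → Fin p → ℕ) → G := fun l A _ => f l A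
  have hF : LocalTerms S F := fun l A A' _ h => hf l A A' h
  let f' : Finset (Fin n) → G := fun T => setCode F id K (T ∩ K)
  have hfT : ∀ T ⊆ K, f' T = setCode F id K T := by
    intro T hT
    show setCode F id K (T ∩ K) = _
    rw [Finset.inter_eq_left.2 hT]
  have hq : QuadOn K f' := by
    intro C X Y hC hX hY h1 h2 h3
    rw [hfT _ (Finset.union_subset hC (Finset.union_subset hX hY)), hfT _ hC, hfT _ hX, hfT _ hY,
      hfT _ (Finset.union_subset hC hX), hfT _ (Finset.union_subset hC hY),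
      hfT _ (Finset.union_subset hX hY), hfT _ (Finset.empty_subset K)]
    exact setCode_quad hF id K hK C X Y hC hX hY h1 h2 h3
  have hd : DecOn K f' := by
    intro X Y hX hY h
    rw [hfT _ hX, hfT _ hY] at h
    exact setCode_dec' π g D hD K hM X Y hX hY h
  refine quad_codes K f' hq hd Q ?_ r hr
  intro X
  exact hQ _ (mat_bounded (p := p) Finset.inter_subset_right hmono hM).1

/-- Terms which read at most one column of `K`. -/
theorem single_encoding {ι : Type*} [Fintype ι] {S : ι → Finset (Fin n)}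
    {F : ι → (Fin m → Fin n → ℕ) → (Fin n → Fin p → ℕ) → G} (hF : LocalTerms S F)
    {M : ℕ} {i : Fin m} {j : Fin p}
    {α β : ℝ} (hα : 1 ≤ α) (hβ : 0 ≤ β) (D : G → ℝ)
    (hD : ∀ A B, Bounded M A B → ∀ c, IsMinPlus A B i j c →
      (c : ℝ) ≤ D (∑ l, F l A B) ∧ D (∑ l, F l A B) ≤ α * c + β)
    (K : Finset (Fin n)) (hK : ∀ l, (S l ∩ K).card ≤ 1) (hsc : Scales α β K.card M)
    (Q : Finset G) (hQ : ∀ A B, Bounded M A B → ∑ l, F l A B ∈ Q) :
    2 ^ K.card ≤ Q.card := by
  classical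
  obtain ⟨v, hv, hM⟩ := hsc
  have hmono : ∀ a b, a ≤ b → b ≤ K.card → v a ≤ v b := fun a b h1 h2 => v_mono hα hβ hv h1 h2
  let f : Finset (Fin n) → G := fun T => setCode F v K (T ∩ K)
  have hfT : ∀ T ⊆ K, f T = setCode F v K T := by
    intro T hT
    show setCode F v K (T ∩ K) = _
    rw [Finset.inter_eq_left.2 hT]
  refine add_codes K f ?_ ?_ Q ?_
  · intro X Y hX hY h
    rw [hfT _ (Finset.union_subset hX hY), hfT _ hX, hfT _ hY, hfT _ (Finset.empty_subset K)]
    exact setCode_add hF v K hK X Y hX hY h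
  · intro X Y hX hY h
    rw [hfT _ hX, hfT _ hY] at h
    exact setCode_dec hα hβ D hD K hv hM X Y hX hY h
  · intro X
    exact hQ _ _ (mat_bounded Finset.inter_subset_right hmono hM)

/-- Pair-local functions of a set which determine its minimum have many values. -/
theorem pair_sets {ι : Type*} [Fintype ι] (S : ι → Finset (Fin n))
    (φ : ι → Finset (Fin n) → G) (hS : ∀ l, (S l).card ≤ 2)
    (hd : ∀ X Y : Finset (Fin n), ∑ l, φ l (X ∩ S l) = ∑ l, φ l (Y ∩ S l) → X.min = Y.min)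
    (r : ℕ) (hr : r ^ 3 ≤ n) (Q : Finset G) (hQ : ∀ X : Finset (Fin n), ∑ l, φ l (X ∩ S l) ∈ Q) :
    2 ^ r ≤ Q.card := by
  refine quad_codes (Finset.univ : Finset (Fin n)) (fun X => ∑ l, φ l (X ∩ S l)) ?_
    (fun X Y _ _ h => hd X Y h) Q hQ r (by simpa using hr)
  intro C X Y _ _ _ hCX hCY hXY
  simp only
  rw [← Finset.sum_add_distrib, ← Finset.sum_add_distrib, ← Finset.sum_add_distrib,
    ← Finset.sum_add_distrib, ← Finset.sum_add_distrib, ← Finset.sum_add_distrib]
  refine Finset.sum_congr rfl fun l _ => ?_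
  have hmiss : C ∩ S l = ∅ ∨ X ∩ S l = ∅ ∨ Y ∩ S l = ∅ := by
    by_contra hcon
    push Not at hcon
    obtain ⟨h1, h2, h3⟩ := hcon
    obtain ⟨a, ha⟩ := h1
    obtain ⟨b, hb⟩ := h2
    obtain ⟨c, hc⟩ := h3
    rw [Finset.mem_inter] at ha hb hc
    have hab : a ≠ b := fun h => Finset.disjoint_left.1 hCX ha.1 (h ▸ hb.1)
    have hac : a ≠ c := fun h => Finset.disjoint_left.1 hCY ha.1 (h ▸ hc.1)
    have hbc : b ≠ c := fun h => Finset.disjoint_left.1 hXY hb.1 (h ▸ hc.1)
    have hsub : ({a, b, c} : Finset (Fin n)) ⊆ S l := by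
      intro x hx
      simp only [Finset.mem_insert, Finset.mem_singleton] at hx
      rcases hx with rfl | rfl | rfl
      · exact ha.2
      · exact hb.2
      · exact hc.2
    have h3 : ({a, b, c} : Finset (Fin n)).card = 3 := by
      rw [Finset.card_insert_of_notMem, Finset.card_insert_of_notMem, Finset.card_singleton]
      · simpa using hbc
      · simp only [Finset.mem_insert, Finset.mem_singleton, not_or]
        exact ⟨hab, hac⟩
    have := Finset.card_le_card hsub
    have := hS l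
    omega
  rcases hmiss with h | h | h
  · simp only [Finset.union_inter_distrib_right, h, Finset.empty_union, Finset.empty_inter]
    abel
  · simp only [Finset.union_inter_distrib_right, h, Finset.empty_union, Finset.empty_inter,
      Finset.union_empty]
    abel
  · simp only [Finset.union_inter_distrib_right, h, Finset.empty_inter,
      Finset.union_empty]

end Pool.Agent.J4.H83.LE
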