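import Mathlib
import Pool.Agent.J4.H83.LE.App

/-!
# The block encoding
-/

set_option autoImplicit false

open Pool.Agent.N578.Enc

namespace Pool.Agent.J4.H83.LE

variable {m n p : ℕ}

/-- minimum over the columns of block `l` -/
noncomputable def blockMin (w : ℕ) (i : Fin m) (j : Fin p) (A : Fin m → Fin n → ℕ)
    (B : Fin n → Fin p → ℕ) (l : ℕ) : ℕ :=
  sInf {x | ∃ k : Fin n, (k : ℕ) / w = l ∧ x = A i k + B k j}

/-- One term per block of `w` columns. -/
theorem block_encoding (m n p w M : ℕ) (hw : 0 < w) (i : Fin m) (j : Fin p) :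
    ∃ (S : Fin ((n + w - 1) / w) → Finset (Fin n))
      (F : Fin ((n + w - 1) / w) → (Fin m → Fin n → ℕ) → (Fin n → Fin p → ℕ) →
        (Fin ((n + w - 1) / w) → ZMod (2 * M + 1)))
      (D : (Fin ((n + w - 1) / w) → ZMod (2 * M + 1)) → ℝ),
      LocalTerms S F ∧ (∀ l, (S l).card ≤ w) ∧
      ∀ A B, Bounded M A B → ∀ c, IsMinPlus A B i j c → D (∑ l, F l A B) = c := by
  classical
  set s := (n + w - 1) / w with hs
  have hlt : ∀ k : Fin n, (k : ℕ) / w < s := by
    intro k
    rw [hs, Nat.div_lt_iff_lt_mul hw]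
    have h1 : n ≤ (n + w - 1) / w * w := by
      have h2 := Nat.div_add_mod (n + w - 1) w
      have h3 := Nat.mod_lt (n + w - 1) hw
      have h4 : w * ((n + w - 1) / w) = (n + w - 1) / w * w := mul_comm _ _
      omega
    exact lt_of_lt_of_le k.isLt h1
  have hex : ∀ l : Fin s, ∃ k : Fin n, (k : ℕ) / w = l := by
    intro l
    have h1 : (l : ℕ) * w < n := by
      have h2 : (l : ℕ) + 1 ≤ (n + w - 1) / w := l.isLt
      have h3 : ((l : ℕ) + 1) * w ≤ n + w - 1 := (Nat.le_div_iff_mul_le hw).1 h2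
      have h4 : ((l : ℕ) + 1) * w = l * w + w := by ring
      omega
    exact ⟨⟨l * w, h1⟩, Nat.mul_div_cancel _ hw⟩
  refine ⟨fun l => Finset.univ.filter (fun k : Fin n => (k : ℕ) / w = l),
    fun l A B l' => if l' = l then ((blockMin w i j A B l : ℕ) : ZMod (2 * M + 1)) else 0,
    fun g => ((sInf {x : ℕ | ∃ l, x = (g l).val} : ℕ) : ℝ), ?_, ?_, ?_⟩
  · intro l A A' B h
    have : blockMin w i j A B l = blockMin w i j A' B l := by
      unfold blockMin
      congr 1
      ext x
      constructor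
      · rintro ⟨k, h1, h2⟩
        exact ⟨k, h1, by rw [h2, h i k (by simpa using h1)]⟩
      · rintro ⟨k, h1, h2⟩
        exact ⟨k, h1, by rw [h2, h i k (by simpa using h1)]⟩
    simp only [this]
  · intro l
    have : (Finset.univ.filter (fun k : Fin n => (k : ℕ) / w = l)).card ≤ (Finset.range w).card := by
      apply Finset.card_le_card_of_injOn (fun k : Fin n => (k : ℕ) % w)
      · intro k _
        simpa using Nat.mod_lt _ hw
      · intro a ha b hb hab
        have h1 := Nat.div_add_mod (a : ℕ) w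
        have h2 := Nat.div_add_mod (b : ℕ) w
        have ha' : (a : ℕ) / w = l := by simpa using ha
        have hb' : (b : ℕ) / w = l := by simpa using hb
        have hab' : (a : ℕ) % w = (b : ℕ) % w := hab
        rw [ha'] at h1
        rw [hb'] at h2
        apply Fin.ext
        omega
    simpa using this
  · intro A B hAB c hc
    have hsum : ∀ l', (∑ l, (fun (l' : Fin s) => if l' = l then
        ((blockMin w i j A B l : ℕ) : ZMod (2 * M + 1)) else 0)) l' =
        ((blockMin w i j A B l' : ℕ) : ZMod (2 * M + 1)) := by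
      intro l'
      rw [Finset.sum_apply, Finset.sum_ite_eq]
      simp
    have hmem : ∀ l : Fin s, ∃ k : Fin n, (k : ℕ) / w = l ∧
        blockMin w i j A B l = A i k + B k j := by
      intro l
      obtain ⟨k, hk⟩ := hex l
      have hne : {x | ∃ k : Fin n, (k : ℕ) / w = l ∧ x = A i k + B k j}.Nonempty :=
        ⟨_, k, hk, rfl⟩
      exact Nat.sInf_mem hne
    have hval : ∀ l : Fin s, (((blockMin w i j A B l : ℕ) : ZMod (2 * M + 1))).val =
        blockMin w i j A B l := by
      intro l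
      apply ZMod.val_cast_of_lt
      obtain ⟨k, _, h2⟩ := hmem l
      rw [h2]
      have h3 := hAB.1 i k
      have h4 := hAB.2 k j
      omega
    have hset : {x : ℕ | ∃ l, x = ((∑ l, (fun (l' : Fin s) => if l' = l then
        ((blockMin w i j A B l : ℕ) : ZMod (2 * M + 1)) else 0)) l).val} =
        {x : ℕ | ∃ l : Fin s, x = blockMin w i j A B l} := by
      ext x
      simp only [Set.mem_ofPred_eq, hsum, hval]
    show ((sInf {x : ℕ | ∃ l, x = ((∑ l, (fun (l' : Fin s) => if l' = l then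
        ((blockMin w i j A B l : ℕ) : ZMod (2 * M + 1)) else 0)) l).val} : ℕ) : ℝ) = c
    rw [hset]
    congr 1
    obtain ⟨⟨k, hk⟩, hle⟩ := hc
    apply le_antisymm
    · -- the block of `k`
      have h1 : sInf {x : ℕ | ∃ l : Fin s, x = blockMin w i j A B l} ≤
          blockMin w i j A B ((⟨(k : ℕ) / w, hlt k⟩ : Fin s) : ℕ) :=
        Nat.sInf_le ⟨⟨(k : ℕ) / w, hlt k⟩, rfl⟩
      have h2 : blockMin w i j A B ((⟨(k : ℕ) / w, hlt k⟩ : Fin s) : ℕ) ≤ A i k + B k j :=
        Nat.sInf_le ⟨k, rfl, rfl⟩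
      have h3 : A i k + B k j = c := hk
      omega
    · have hne : {x : ℕ | ∃ l : Fin s, x = blockMin w i j A B l}.Nonempty :=
        ⟨_, ⟨(k : ℕ) / w, hlt k⟩, rfl⟩
      obtain ⟨l, hl⟩ := Nat.sInf_mem hne
      rw [hl]
      obtain ⟨k', _, h2⟩ := hmem l
      rw [h2]
      exact hle ⟨k', rfl⟩

end Pool.Agent.J4.H83.LE
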