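import Mathlib

/-!
# Sampling and independent sets
-/

set_option autoImplicit false

namespace Pool.Agent.J4.H83.LE

open Finset

variable {α : Type*} [DecidableEq α]

/-- total weight of the members of `𝓣` inside `V` -/
noncomputable def tot (𝓣 : Finset (Finset α)) (ω : Finset α → ℝ) (V : Finset α) : ℝ :=
  ∑ τ ∈ 𝓣.filter (fun τ => τ ⊆ V), ω τ

theorem tot_nonneg {𝓣 : Finset (Finset α)} {ω : Finset α → ℝ} (hω : ∀ τ, 0 ≤ ω τ)
    (V : Finset α) : 0 ≤ tot 𝓣 ω V := Finset.sum_nonneg fun τ _ => hω τ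

/-- There is a `k`-subset which contains at most the average weight. -/
theorem sample (j : ℕ) (𝓣 : Finset (Finset α)) (hj : ∀ τ ∈ 𝓣, τ.card = j) (ω : Finset α → ℝ)
    (hω : ∀ τ, 0 ≤ ω τ) : ∀ (m : ℕ) (V : Finset α), V.card = m → ∀ k, k ≤ m →
      ∃ K ⊆ V, K.card = k ∧ tot 𝓣 ω K * (m.choose j : ℝ) ≤ tot 𝓣 ω V * (k.choose j : ℝ) := by
  intro m
  induction m with
  | zero =>
    intro V hV k hk
    obtain rfl : k = 0 := by omega
    exact ⟨V, Subset.refl _, hV, le_rfl⟩
  | succ m ih =>
    intro V hV k hk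
    rcases hk.eq_or_lt with rfl | hk
    · exact ⟨V, Subset.refl _, hV, le_rfl⟩
    -- a vertex of large degree
    have hne : V.Nonempty := Finset.card_pos.1 (by omega)
    have hsum : ∑ v ∈ V, ∑ τ ∈ (𝓣.filter (fun τ => τ ⊆ V)).filter (fun τ => v ∈ τ), ω τ =
        (j : ℝ) * tot 𝓣 ω V := by
      unfold tot
      simp_rw [Finset.sum_filter (fun τ => _ ∈ τ)]
      rw [Finset.sum_comm, Finset.mul_sum]
      refine Finset.sum_congr rfl fun τ hτ => ?_
      rw [Finset.mem_filter] at hτ
      rw [← Finset.sum_filter, Finset.sum_const, nsmul_eq_mul]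
      congr 2
      rw [← hj τ hτ.1]
      congr 1
      ext x
      rw [Finset.mem_filter]
      exact ⟨fun h => h.2, fun h => ⟨hτ.2 h, h⟩⟩
    obtain ⟨v, hv, hdeg⟩ : ∃ v ∈ V, (j : ℝ) * tot 𝓣 ω V ≤ (m + 1 : ℝ) *
        ∑ τ ∈ (𝓣.filter (fun τ => τ ⊆ V)).filter (fun τ => v ∈ τ), ω τ := by
      by_contra hcon
      push Not at hcon
      have h1 : ∑ v ∈ V, (m + 1 : ℝ) *
          ∑ τ ∈ (𝓣.filter (fun τ => τ ⊆ V)).filter (fun τ => v ∈ τ), ω τ <
          ∑ _v ∈ V, (j : ℝ) * tot 𝓣 ω V := Finset.sum_lt_sum_of_nonempty hne hcon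
      rw [← Finset.mul_sum, hsum, Finset.sum_const, hV, nsmul_eq_mul] at h1
      push_cast at h1
      exact lt_irrefl _ h1
    have herase : tot 𝓣 ω (V.erase v) = tot 𝓣 ω V -
        ∑ τ ∈ (𝓣.filter (fun τ => τ ⊆ V)).filter (fun τ => v ∈ τ), ω τ := by
      unfold tot
      rw [← Finset.sum_filter_add_sum_filter_not (𝓣.filter (fun τ => τ ⊆ V)) (fun τ => v ∈ τ),
        add_sub_cancel_left]
      refine Finset.sum_congr ?_ fun _ _ => rfl
      ext τ
      simp only [Finset.mem_filter]
      constructor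
      · rintro ⟨h1, h2⟩
        refine ⟨⟨h1, h2.trans (Finset.erase_subset _ _)⟩, fun h3 => ?_⟩
        exact (Finset.notMem_erase v V) (h2 h3)
      · rintro ⟨⟨h1, h2⟩, h3⟩
        exact ⟨h1, Finset.subset_erase.2 ⟨h2, h3⟩⟩
    have hle : tot 𝓣 ω (V.erase v) * (m + 1 : ℝ) ≤ tot 𝓣 ω V * ((m + 1 : ℝ) - j) := by
      rw [herase]
      nlinarith
    obtain ⟨K, hKV, hKc, hK⟩ := ih (V.erase v) (by rw [Finset.card_erase_of_mem hv]; omega) k
      (by omega)
    refine ⟨K, hKV.trans (Finset.erase_subset _ _), hKc, ?_⟩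
    have hT := tot_nonneg hω (𝓣 := 𝓣) V
    have hTK := tot_nonneg hω (𝓣 := 𝓣) K
    rcases lt_or_ge m j with hmj | hmj
    · -- `k ≤ m < j`: nothing inside `K`
      have : tot 𝓣 ω K = 0 := by
        unfold tot
        apply Finset.sum_eq_zero
        intro τ hτ
        rw [Finset.mem_filter] at hτ
        have h1 := Finset.card_le_card hτ.2
        have h2 := hj τ hτ.1
        omega
      rw [this, zero_mul]
      positivity
    · -- `C(m+1, j) * (m + 1 - j) = C(m, j) * (m + 1)`
      have hch : ((m + 1).choose j : ℝ) * ((m + 1 : ℝ) - j) = (m.choose j : ℝ) * (m + 1) := by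
        have h1 := Nat.add_one_mul_choose_eq m j
        have h2 := Nat.choose_succ_right_eq (m + 1) j
        -- (m+1) * C(m, j) = C(m+1, j+1) * (j+1), C(m+1, j+1) * (j+1) = C(m+1, j) * (m+1-j)
        have h3 : (m + 1) * m.choose j = (m + 1).choose j * (m + 1 - j) := by
          rw [h1, h2]
        have h4 : (((m + 1) * m.choose j : ℕ) : ℝ) = (((m + 1).choose j * (m + 1 - j) : ℕ) : ℝ) := by
          rw [h3]
        rw [Nat.cast_mul, Nat.cast_mul, Nat.cast_sub (by omega)] at h4
        push_cast at h4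
        linarith
      have hpos : (0 : ℝ) < (m + 1 : ℝ) - j := by
        have : (j : ℝ) ≤ m := by exact_mod_cast hmj
        linarith
      have h5 : tot 𝓣 ω K * (m.choose j : ℝ) * (m + 1) ≤
          tot 𝓣 ω (V.erase v) * (k.choose j : ℝ) * (m + 1) :=
        mul_le_mul_of_nonneg_right hK (by positivity)
      have h6 : tot 𝓣 ω (V.erase v) * (k.choose j : ℝ) * (m + 1) ≤
          tot 𝓣 ω V * ((m + 1 : ℝ) - j) * (k.choose j : ℝ) := by
        have h0 : (0 : ℝ) ≤ (k.choose j : ℝ) := by positivity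
        nlinarith [mul_le_mul_of_nonneg_right hle h0]
      have h7 : (tot 𝓣 ω K * ((m + 1).choose j : ℝ)) * ((m + 1 : ℝ) - j) ≤
          (tot 𝓣 ω V * (k.choose j : ℝ)) * ((m + 1 : ℝ) - j) := by
        calc (tot 𝓣 ω K * ((m + 1).choose j : ℝ)) * ((m + 1 : ℝ) - j)
            = tot 𝓣 ω K * (((m + 1).choose j : ℝ) * ((m + 1 : ℝ) - j)) := by ring
          _ = tot 𝓣 ω K * (m.choose j : ℝ) * (m + 1) := by rw [hch]; ring
          _ ≤ _ := h5
          _ ≤ tot 𝓣 ω V * ((m + 1 : ℝ) - j) * (k.choose j : ℝ) := h6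
          _ = _ := by ring
      exact le_of_mul_le_mul_right h7 hpos

/-- **Turán bound**, weak form: an independent set `K` with `|V| ^ 2 ≤ |K| (|V| + sum of the
degrees)`. -/
theorem turan (adj : α → α → Prop) [DecidableRel adj] (hsymm : ∀ x y, adj x y → adj y x) :
    ∀ (m : ℕ) (V : Finset α), V.card = m →
      ∃ K ⊆ V, (∀ x ∈ K, ∀ y ∈ K, x ≠ y → ¬ adj x y) ∧
        ∑ v ∈ V, (1 : ℝ) / (1 + ((V.filter (fun u => adj v u ∧ u ≠ v)).card : ℝ)) ≤ K.card := by
  intro m
  induction m using Nat.strong_induction_on with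
  | _ m ih =>
    intro V hV
    rcases V.eq_empty_or_nonempty with rfl | hne
    · exact ⟨∅, Subset.refl _, by simp, by simp⟩
    obtain ⟨v, hv, hmin⟩ := Finset.exists_min_image V
      (fun v => (V.filter (fun u => adj v u ∧ u ≠ v)).card) hne
    set N := insert v (V.filter (fun u => adj v u ∧ u ≠ v)) with hN
    have hNV : N ⊆ V := by
      intro x hx
      rcases Finset.mem_insert.1 hx with rfl | hx
      · exact hv
      · exact (Finset.mem_filter.1 hx).1
    have hNc : N.card = (V.filter (fun u => adj v u ∧ u ≠ v)).card + 1 := by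
      rw [hN, Finset.card_insert_of_notMem]
      intro h
      exact (Finset.mem_filter.1 h).2.2 rfl
    obtain ⟨K, hKV, hKi, hKs⟩ := ih (V \ N).card (by
      rw [← hV]
      apply Finset.card_lt_card
      rw [Finset.ssubset_iff_of_subset Finset.sdiff_subset]
      refine ⟨v, hv, ?_⟩
      rw [Finset.mem_sdiff, not_and, not_not]
      intro _
      exact Finset.mem_insert_self _ _) (V \ N) rfl
    have hvK : v ∉ K := by
      intro h
      exact (Finset.mem_sdiff.1 (hKV h)).2 (Finset.mem_insert_self _ _)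
    have hnadj : ∀ y ∈ K, ¬ adj v y := by
      intro y hy h
      have h1 := Finset.mem_sdiff.1 (hKV hy)
      apply h1.2
      apply Finset.mem_insert_of_mem
      rw [Finset.mem_filter]
      exact ⟨h1.1, h, fun h2 => hvK (h2 ▸ hy)⟩
    refine ⟨insert v K, ?_, ?_, ?_⟩
    · intro x hx
      rcases Finset.mem_insert.1 hx with rfl | hx
      · exact hv
      · exact (Finset.mem_sdiff.1 (hKV hx)).1
    · intro x hx y hy hxy
      rcases Finset.mem_insert.1 hx with hx | hx <;> rcases Finset.mem_insert.1 hy with hy | hy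
      · exact absurd (hx.trans hy.symm) hxy
      · rw [hx]
        exact hnadj y hy
      · rw [hy]
        exact fun h => hnadj x hx (hsymm _ _ h)
      · exact hKi x hx y hy hxy
    · rw [Finset.card_insert_of_notMem hvK, ← Finset.sum_sdiff hNV]
      push_cast
      apply add_le_add
      · refine le_trans ?_ hKs
        apply Finset.sum_le_sum
        intro u hu
        apply one_div_le_one_div_of_le (by positivity)
        have : ((V \ N).filter (fun x => adj u x ∧ x ≠ u)).card ≤
            (V.filter (fun x => adj u x ∧ x ≠ u)).card := by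
          apply Finset.card_le_card
          exact Finset.filter_subset_filter _ Finset.sdiff_subset
        have h2 : (((V \ N).filter (fun x => adj u x ∧ x ≠ u)).card : ℝ) ≤
            ((V.filter (fun x => adj u x ∧ x ≠ u)).card : ℝ) := by exact_mod_cast this
        linarith
      · calc ∑ u ∈ N, (1 : ℝ) / (1 + ((V.filter (fun x => adj u x ∧ x ≠ u)).card : ℝ))
            ≤ ∑ _u ∈ N, (1 : ℝ) / (1 + ((V.filter (fun x => adj v x ∧ x ≠ v)).card : ℝ)) := by
              apply Finset.sum_le_sum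
              intro u hu
              apply one_div_le_one_div_of_le (by positivity)
              have : ((V.filter (fun x => adj v x ∧ x ≠ v)).card : ℝ) ≤
                  ((V.filter (fun x => adj u x ∧ x ≠ u)).card : ℝ) := by
                exact_mod_cast hmin u (hNV hu)
              linarith
          _ = 1 := by
              rw [Finset.sum_const, hNc, nsmul_eq_mul]
              push_cast
              rw [add_comm]
              field_simp

theorem turan_sq (adj : α → α → Prop) [DecidableRel adj] (hsymm : ∀ x y, adj x y → adj y x)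
    (V : Finset α) :
    ∃ K ⊆ V, (∀ x ∈ K, ∀ y ∈ K, x ≠ y → ¬ adj x y) ∧
      V.card ^ 2 ≤ K.card * (V.card + ∑ v ∈ V, (V.filter (fun u => adj v u ∧ u ≠ v)).card) := by
  obtain ⟨K, h1, h2, h3⟩ := turan adj hsymm V.card V rfl
  refine ⟨K, h1, h2, ?_⟩
  have h4 := Finset.sq_sum_div_le_sum_sq_div V (fun _ => (1 : ℝ))
    (g := fun v => 1 + ((V.filter (fun u => adj v u ∧ u ≠ v)).card : ℝ))
    (fun v _ => by positivity)
  simp only [Finset.sum_const, nsmul_eq_mul, mul_one, one_pow] at h4
  have hpos : (0 : ℝ) ≤ ∑ v ∈ V, (1 + ((V.filter (fun u => adj v u ∧ u ≠ v)).card : ℝ)) :=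
    Finset.sum_nonneg fun v _ => by positivity
  have h5 : (V.card : ℝ) ^ 2 ≤ K.card *
      ∑ v ∈ V, (1 + ((V.filter (fun u => adj v u ∧ u ≠ v)).card : ℝ)) := by
    rcases hpos.eq_or_lt with h0 | h0
    · have hV0 : V.card = 0 := by
        by_contra hne
        have hVn : V.Nonempty := Finset.card_pos.1 (Nat.pos_of_ne_zero hne)
        have : (0 : ℝ) < ∑ v ∈ V, (1 + ((V.filter (fun u => adj v u ∧ u ≠ v)).card : ℝ)) :=
          Finset.sum_pos (fun v _ => by positivity) hVn
        linarith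
      rw [hV0, ← h0]
      simp
    · rw [← div_le_iff₀ h0]
      exact h4.trans h3
  have h6 : ((V.card ^ 2 : ℕ) : ℝ) ≤
      ((K.card * (V.card + ∑ v ∈ V, (V.filter (fun u => adj v u ∧ u ≠ v)).card) : ℕ) : ℝ) := by
    push_cast
    rw [Finset.sum_add_distrib] at h5
    simpa using h5
  exact_mod_cast h6

end Pool.Agent.J4.H83.LE
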