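import Mathlib
import Pool.Agent.J4.H83.LE.App
import Pool.Agent.J4.H83.LE.Sample

/-!
# Local encodings with few terms
-/

set_option autoImplicit false

open Pool.Agent.N578.Enc

namespace Pool.Agent.J4.H83.LE

variable {G : Type*} [AddCommGroup G] {m n p : ℕ}

theorem scales_of_le {α β : ℝ} {L L' M : ℕ} (hα : 1 ≤ α) (hβ : 0 ≤ β) (h : Scales α β L M)
    (hL : L' ≤ L) : Scales α β L' M := by
  obtain ⟨v, hv, hM⟩ := h
  exact ⟨v, fun l hl => hv l (by omega), (v_mono hα hβ hv hL le_rfl).trans hM⟩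

/-- sum of the degrees in the conflict graph -/
theorem degree_sum {ι : Type*} [Fintype ι] [DecidableEq ι] (S : ι → Finset (Fin n)) (w : ℕ)
    (hw : ∀ l, (S l).card ≤ w) [DecidableRel fun x y : Fin n => ∃ l, x ∈ S l ∧ y ∈ S l] :
    ∑ v : Fin n, ((Finset.univ : Finset (Fin n)).filter
      (fun u => (∃ l, v ∈ S l ∧ u ∈ S l) ∧ u ≠ v)).card ≤ Fintype.card ι * (w * (w - 1)) := by
  have h1 : ∀ v : Fin n, ((Finset.univ : Finset (Fin n)).filter
      (fun u => (∃ l, v ∈ S l ∧ u ∈ S l) ∧ u ≠ v)).card ≤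
      ∑ l : ι, if v ∈ S l then ((S l).card - 1) else 0 := by
    intro v
    rw [← Finset.sum_filter]
    calc ((Finset.univ : Finset (Fin n)).filter
        (fun u => (∃ l, v ∈ S l ∧ u ∈ S l) ∧ u ≠ v)).card
        ≤ ((Finset.univ.filter fun l : ι => v ∈ S l).biUnion fun l => (S l).erase v).card := by
          apply Finset.card_le_card
          intro u hu
          rw [Finset.mem_filter] at hu
          obtain ⟨_, ⟨l, h1, h2⟩, h3⟩ := hu
          rw [Finset.mem_biUnion]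
          exact ⟨l, by simp [h1], Finset.mem_erase.2 ⟨h3, h2⟩⟩
      _ ≤ ∑ l ∈ Finset.univ.filter (fun l : ι => v ∈ S l), ((S l).erase v).card :=
          Finset.card_biUnion_le
      _ = _ := by
          refine Finset.sum_congr rfl fun l hl => ?_
          rw [Finset.mem_filter] at hl
          rw [Finset.card_erase_of_mem hl.2]
  calc ∑ v : Fin n, ((Finset.univ : Finset (Fin n)).filter
      (fun u => (∃ l, v ∈ S l ∧ u ∈ S l) ∧ u ≠ v)).card
      ≤ ∑ v : Fin n, ∑ l : ι, (if v ∈ S l then ((S l).card - 1) else 0) :=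
        Finset.sum_le_sum fun v _ => h1 v
    _ = ∑ l : ι, ∑ v : Fin n, (if v ∈ S l then ((S l).card - 1) else 0) := Finset.sum_comm
    _ ≤ ∑ _l : ι, w * (w - 1) := by
        apply Finset.sum_le_sum
        intro l _
        rw [← Finset.sum_filter, Finset.sum_const, smul_eq_mul]
        have h2 : (Finset.univ.filter fun v : Fin n => v ∈ S l) = S l := by
          ext x; simp
        rw [h2]
        exact Nat.mul_le_mul (hw l) (Nat.sub_le_sub_right (hw l) 1)
    _ = Fintype.card ι * (w * (w - 1)) := by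
        rw [Finset.sum_const, smul_eq_mul, Finset.card_univ]

/-- A large set of columns such that no term reads two of them. -/
theorem exists_indep {ι : Type*} [Fintype ι] (S : ι → Finset (Fin n)) (w : ℕ)
    (hw : ∀ l, (S l).card ≤ w) (hn : 0 < n) (r : ℕ)
    (hr : r * (n + Fintype.card ι * (w * (w - 1))) ≤ n ^ 2) :
    ∃ K : Finset (Fin n), K.card = r ∧ ∀ l, (S l ∩ K).card ≤ 1 := by
  classical
  obtain ⟨K, _, h2, h3⟩ := turan_sq (fun x y : Fin n => ∃ l, x ∈ S l ∧ y ∈ S l)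
    (fun x y ⟨l, h1, h2⟩ => ⟨l, h2, h1⟩) Finset.univ
  have h4 := degree_sum S w hw
  rw [Finset.card_univ, Fintype.card_fin] at h3
  have h5 : n ^ 2 ≤ K.card * (n + Fintype.card ι * (w * (w - 1))) :=
    h3.trans (Nat.mul_le_mul_left _ (Nat.add_le_add_left h4 _))
  have h6 : r ≤ K.card := by
    have h7 : r * (n + Fintype.card ι * (w * (w - 1))) ≤
        K.card * (n + Fintype.card ι * (w * (w - 1))) := hr.trans h5
    exact Nat.le_of_mul_le_mul_right h7 (by omega)
  obtain ⟨K', hK', hc⟩ := Finset.exists_subset_card_eq h6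
  refine ⟨K', hc, fun l => ?_⟩
  rw [Finset.card_le_one]
  intro a ha b hb
  rw [Finset.mem_inter] at ha hb
  by_contra hab
  exact h2 a (hK' ha.2) b (hK' hb.2) hab ⟨l, ha.1, hb.1⟩

/-- **Few terms, deterministic.** -/
theorem few_terms {ι : Type*} [Fintype ι] {S : ι → Finset (Fin n)}
    {F : ι → (Fin m → Fin n → ℕ) → (Fin n → Fin p → ℕ) → G} (hF : LocalTerms S F)
    {M r w : ℕ} {i : Fin m} {j : Fin p}
    {α β : ℝ} (hα : 1 ≤ α) (hβ : 0 ≤ β) (D : G → ℝ)
    (hD : ∀ A B, Bounded M A B → ∀ c, IsMinPlus A B i j c →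
      (c : ℝ) ≤ D (∑ l, F l A B) ∧ D (∑ l, F l A B) ≤ α * c + β)
    (hn : 0 < n) (hw : ∀ l, (S l).card ≤ w)
    (hr : r * (n + Fintype.card ι * (w * (w - 1))) ≤ n ^ 2) (hsc : Scales α β r M)
    (Q : Finset G) (hQ : ∀ A B, Bounded M A B → ∑ l, F l A B ∈ Q) :
    2 ^ r ≤ Q.card := by
  obtain ⟨K, hKc, hK⟩ := exists_indep S w hw hn r hr
  have := single_encoding hF hα hβ D hD K hK (by rw [hKc]; exact hsc) Q hQ
  rwa [hKc] at this

/-- A large set of columns such that no term reads three of them. -/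
theorem exists_indep3 {ι : Type*} [Fintype ι] (S : ι → Finset (Fin n)) (w : ℕ)
    (hw : ∀ l, (S l).card ≤ w) (κ : ℕ) (hκn : 2 * κ ≤ n)
    (hκ : Fintype.card ι * w.choose 3 * (2 * κ).choose 3 ≤ κ * n.choose 3) :
    ∃ K : Finset (Fin n), K.card = κ ∧ ∀ l, (S l ∩ K).card ≤ 2 := by
  classical
  let 𝓣 : Finset (Finset (Fin n)) := Finset.univ.biUnion fun l => (S l).powersetCard 3
  have h𝓣 : ∀ τ ∈ 𝓣, τ.card = 3 := by
    intro τ hτ
    rw [Finset.mem_biUnion] at hτ
    obtain ⟨l, _, hl⟩ := hτ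
    exact (Finset.mem_powersetCard.1 hl).2
  have h𝓣c : 𝓣.card ≤ Fintype.card ι * w.choose 3 := by
    calc 𝓣.card ≤ ∑ l : ι, ((S l).powersetCard 3).card := Finset.card_biUnion_le
      _ ≤ ∑ _l : ι, w.choose 3 := by
          apply Finset.sum_le_sum
          intro l _
          rw [Finset.card_powersetCard]
          exact Nat.choose_le_choose 3 (hw l)
      _ = _ := by rw [Finset.sum_const, smul_eq_mul, Finset.card_univ]
  obtain ⟨K₀, _, hK₀c, hK₀⟩ := sample 3 𝓣 h𝓣 (fun _ => 1) (fun _ => zero_le_one) n Finset.univ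
    (by simp) (2 * κ) hκn
  have htot : ∀ V : Finset (Fin n), tot 𝓣 (fun _ => 1) V =
      ((𝓣.filter (fun τ => τ ⊆ V)).card : ℝ) := by
    intro V
    unfold tot
    simp
  have hbad : (𝓣.filter (fun τ => τ ⊆ K₀)).card ≤ κ := by
    rw [htot, htot] at hK₀
    have h1 : (𝓣.filter (fun τ => τ ⊆ K₀)).card * n.choose 3 ≤
        (𝓣.filter (fun τ => τ ⊆ (Finset.univ : Finset (Fin n)))).card * (2 * κ).choose 3 := by
      exact_mod_cast hK₀
    have h2 : (𝓣.filter (fun τ => τ ⊆ (Finset.univ : Finset (Fin n)))).card ≤ 𝓣.card :=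
      Finset.card_filter_le _ _
    rcases Nat.eq_zero_or_pos (n.choose 3) with h0 | h0
    · have hn3 : n < 3 := by
        by_contra hcon
        exact absurd h0 (Nat.choose_pos (by omega)).ne'
      have : 𝓣.filter (fun τ => τ ⊆ K₀) = ∅ := by
        rw [Finset.filter_eq_empty_iff]
        intro τ hτ _
        have h3 := h𝓣 τ hτ
        have h4 := Finset.card_le_univ τ
        rw [Fintype.card_fin] at h4
        omega
      rw [this]
      simp
    · have h3 : (𝓣.filter (fun τ => τ ⊆ K₀)).card * n.choose 3 ≤ κ * n.choose 3 :=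
        calc _ ≤ _ := h1
          _ ≤ (Fintype.card ι * w.choose 3) * (2 * κ).choose 3 :=
            Nat.mul_le_mul_right _ (h2.trans h𝓣c)
          _ ≤ _ := hκ
      exact Nat.le_of_mul_le_mul_right h3 h0
  -- delete one vertex of every bad triple
  have hne : ∀ τ ∈ 𝓣, τ.Nonempty := fun τ hτ => Finset.card_pos.1 (by rw [h𝓣 τ hτ]; norm_num)
  let R : Finset (Fin n) := (𝓣.filter (fun τ => τ ⊆ K₀)).attach.image
    (fun τ => τ.1.min' (hne τ.1 (Finset.mem_filter.1 τ.2).1))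
  have hRc : R.card ≤ κ := by
    refine Finset.card_image_le.trans ?_
    rw [Finset.card_attach]
    exact hbad
  have hKbig : κ ≤ (K₀ \ R).card := by
    have := Finset.le_card_sdiff R K₀
    omega
  obtain ⟨K, hK, hKc⟩ := Finset.exists_subset_card_eq hKbig
  refine ⟨K, hKc, fun l => ?_⟩
  by_contra hcon
  push Not at hcon
  obtain ⟨τ, hτ, hτc⟩ := Finset.exists_subset_card_eq (show 3 ≤ (S l ∩ K).card by omega)
  have hτ𝓣 : τ ∈ 𝓣 := by
    rw [Finset.mem_biUnion]
    exact ⟨l, Finset.mem_univ _, Finset.mem_powersetCard.2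
      ⟨hτ.trans Finset.inter_subset_left, hτc⟩⟩
  have hτK : τ ⊆ K := hτ.trans Finset.inter_subset_right
  have hτK₀ : τ ⊆ K₀ := (hτK.trans hK).trans Finset.sdiff_subset
  have hmem : τ ∈ 𝓣.filter (fun τ => τ ⊆ K₀) := Finset.mem_filter.2 ⟨hτ𝓣, hτK₀⟩
  have h5 : τ.min' (hne τ hτ𝓣) ∈ R := by
    rw [Finset.mem_image]
    exact ⟨⟨τ, hmem⟩, Finset.mem_attach _ _, rfl⟩
  have h6 := hK (hτK (τ.min'_mem (hne τ hτ𝓣)))
  exact (Finset.mem_sdiff.1 h6).2 h5

/-- **More terms, deterministic.** -/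
theorem few_terms3 {ι : Type*} [Fintype ι] {S : ι → Finset (Fin n)}
    {F : ι → (Fin m → Fin n → ℕ) → (Fin n → Fin p → ℕ) → G} (hF : LocalTerms S F)
    {M r w : ℕ} {i : Fin m} {j : Fin p}
    {α β : ℝ} (hα : 1 ≤ α) (hβ : 0 ≤ β) (D : G → ℝ)
    (hD : ∀ A B, Bounded M A B → ∀ c, IsMinPlus A B i j c →
      (c : ℝ) ≤ D (∑ l, F l A B) ∧ D (∑ l, F l A B) ≤ α * c + β)
    (hw : ∀ l, (S l).card ≤ w) (hrn : 2 * r ^ 3 ≤ n)
    (hr : Fintype.card ι * w.choose 3 * (2 * r ^ 3).choose 3 ≤ r ^ 3 * n.choose 3)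
    (hsc : Scales α β (r ^ 3) M)
    (Q : Finset G) (hQ : ∀ A B, Bounded M A B → ∑ l, F l A B ∈ Q) :
    2 ^ r ≤ Q.card := by
  obtain ⟨K, hKc, hK⟩ := exists_indep3 S w hw (r ^ 3) hrn hr
  exact pair_encoding hF hα hβ D hD K hK (by rw [hKc]; exact hsc) hKc.ge Q hQ

end Pool.Agent.J4.H83.LE
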