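import Mathlib
import Pool.Agent.N578.Enc.Rand
import Pool.Agent.J4.H83.LE.Few

/-!
# Randomized local encodings with few terms
-/

set_option autoImplicit false

open Pool.Agent.N578.Enc

namespace Pool.Agent.J4.H83.LE

variable {G : Type*} [AddCommGroup G] {m n p : ℕ}

section enum

variable {K : Finset (Fin n)} {k : ℕ} (hK : K.card = k)

/-- the subset of `K` given by a bit string -/
def bitSet (x : Fin k → Bool) : Finset (Fin n) :=
  (Finset.univ.filter (fun a => x a = true)).map (K.orderEmbOfFin hK).toEmbedding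

theorem mem_bitSet {x : Fin k → Bool} {y : Fin n} :
    y ∈ bitSet hK x ↔ ∃ a, x a = true ∧ K.orderEmbOfFin hK a = y := by
  unfold bitSet
  rw [Finset.mem_map]
  constructor
  · rintro ⟨a, ha, rfl⟩
    exact ⟨a, (Finset.mem_filter.1 ha).2, rfl⟩
  · rintro ⟨a, ha, rfl⟩
    exact ⟨a, by simp [ha], rfl⟩

theorem bitSet_sub (x : Fin k → Bool) : bitSet hK x ⊆ K := by
  intro y hy
  obtain ⟨a, _, rfl⟩ := (mem_bitSet hK).1 hy
  exact Finset.orderEmbOfFin_mem K hK a

theorem rk_emb (a : Fin k) : rk K (K.orderEmbOfFin hK a) = a := by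
  unfold rk
  have : K.filter (fun x => x < K.orderEmbOfFin hK a) =
      (Finset.Iio a).map (K.orderEmbOfFin hK).toEmbedding := by
    ext y
    rw [Finset.mem_filter, Finset.mem_map]
    constructor
    · rintro ⟨h1, h2⟩
      have h3 : y ∈ Set.range (K.orderEmbOfFin hK) := by
        rw [Finset.range_orderEmbOfFin]
        exact h1
      obtain ⟨b, rfl⟩ := h3
      exact ⟨b, Finset.mem_Iio.2 ((K.orderEmbOfFin hK).lt_iff_lt.1 h2), rfl⟩
    · rintro ⟨b, hb, rfl⟩
      exact ⟨Finset.orderEmbOfFin_mem K hK b,
        (K.orderEmbOfFin hK).lt_iff_lt.2 (Finset.mem_Iio.1 hb)⟩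
  rw [this, Finset.card_map, Fin.card_Iio]

/-- the string with the bits before `a` erased -/
def suf (x : Fin k → Bool) (a : Fin k) : Fin k → Bool := fun b => if b < a then false else x b

/-- the string with the bits from `a` on erased -/
def pref (x : Fin k → Bool) (a : Fin k) : Fin k → Bool := fun b => if b < a then x b else false

theorem bitSet_union (x : Fin k → Bool) (a : Fin k) :
    bitSet hK (pref x a) ∪ bitSet hK (suf x a) = bitSet hK x := by
  ext y
  rw [Finset.mem_union, mem_bitSet, mem_bitSet, mem_bitSet]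
  constructor
  · rintro (⟨b, h1, h2⟩ | ⟨b, h1, h2⟩)
    · unfold pref at h1
      split_ifs at h1
      exact ⟨b, h1, h2⟩
    · unfold suf at h1
      split_ifs at h1
      exact ⟨b, h1, h2⟩
  · rintro ⟨b, h1, h2⟩
    by_cases hb : b < a
    · exact Or.inl ⟨b, by simp [pref, hb, h1], h2⟩
    · exact Or.inr ⟨b, by simp [suf, hb, h1], h2⟩

theorem bitSet_disj (x : Fin k → Bool) (a : Fin k) :
    Disjoint (bitSet hK (pref x a)) (bitSet hK (suf x a)) := by
  rw [Finset.disjoint_left]
  intro y h1 h2
  rw [mem_bitSet] at h1 h2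
  obtain ⟨b, h3, h4⟩ := h1
  obtain ⟨c, h5, h6⟩ := h2
  have hbc : b = c := (K.orderEmbOfFin hK).injective (h4.trans h6.symm)
  subst hbc
  unfold pref at h3
  unfold suf at h5
  split_ifs at h3 h5

theorem minIdx_suf_true {x : Fin k → Bool} {a : Fin k} (ha : x a = true) :
    minIdx K (bitSet hK (suf x a)) = a := by
  have hmem : K.orderEmbOfFin hK a ∈ bitSet hK (suf x a) :=
    (mem_bitSet hK).2 ⟨a, by simp [suf, ha], rfl⟩
  have hne : (bitSet hK (suf x a)).Nonempty := ⟨_, hmem⟩
  have hmin : (bitSet hK (suf x a)).min' hne = K.orderEmbOfFin hK a := by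
    apply le_antisymm (Finset.min'_le _ _ hmem)
    apply Finset.le_min'
    intro y hy
    obtain ⟨b, h1, rfl⟩ := (mem_bitSet hK).1 hy
    unfold suf at h1
    split_ifs at h1 with hb
    exact (K.orderEmbOfFin hK).le_iff_le.2 (not_lt.1 hb)
  unfold minIdx
  rw [dif_pos hne, hmin, rk_emb]

theorem minIdx_suf_false {x : Fin k → Bool} {a : Fin k} (ha : x a = false) :
    (a : ℕ) + 1 ≤ minIdx K (bitSet hK (suf x a)) := by
  unfold minIdx
  split_ifs with hne
  · obtain ⟨b, h1, h2⟩ := (mem_bitSet hK).1 (Finset.min'_mem _ hne)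
    rw [← h2, rk_emb]
    unfold suf at h1
    split_ifs at h1 with hb
    have hab : a ≠ b := by
      rintro rfl
      rw [ha] at h1
      exact Bool.false_ne_true h1
    have h3 : a < b := lt_of_le_of_ne (not_lt.1 hb) hab
    exact h3
  · rw [hK]
    exact a.isLt

end enum

/-- **Few terms, randomized.** -/
theorem few_rand {Ω : Type*} [Fintype Ω] (P : Ω → ℝ) (hP0 : ∀ r, 0 ≤ P r) (hP1 : ∑ r, P r = 1)
    {ι : Type*} [Fintype ι] {S : Ω → ι → Finset (Fin n)}
    {F : Ω → ι → (Fin m → Fin n → ℕ) → (Fin n → Fin p → ℕ) → G}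
    (hF : ∀ r, LocalTerms (S r) (F r))
    {M k w : ℕ} {i : Fin m} {j : Fin p}
    {α β : ℝ} (hα : 1 ≤ α) (hβ : 0 ≤ β) (D : Ω → G → ℝ)
    (hD : ∀ A B, Bounded M A B → ∀ c, IsMinPlus A B i j c →
      ∑ r, (if (c : ℝ) ≤ D r (∑ l, F r l A B) ∧ D r (∑ l, F r l A B) ≤ α * c + β then 0
        else P r) ≤ 1 / 4)
    (hw : ∀ r l, (S r l).card ≤ w) (hk : k ≤ n)
    (hcond : 12 * (Fintype.card ι * w.choose 2) * k.choose 2 ≤ n.choose 2)
    (hsc : Scales α β k M) (q : ℕ)
    (Q : Ω → Finset G) (hq : ∀ r, (Q r).card ≤ q)
    (hQ : ∀ r A B, Bounded M A B → ∑ l, F r l A B ∈ Q r) :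
    2 ^ k ≤ (5 * q) ^ 50 := by
  classical
  obtain ⟨v, hv, hM⟩ := hsc
  let 𝓣 : Finset (Finset (Fin n)) := (Finset.univ : Finset (Fin n)).powersetCard 2
  let ω : Finset (Fin n) → ℝ := fun τ => ∑ r, P r * (if ∃ l, τ ⊆ S r l then 1 else 0)
  have hω : ∀ τ, 0 ≤ ω τ := by
    intro τ
    apply Finset.sum_nonneg
    intro r _
    apply mul_nonneg (hP0 r)
    split_ifs <;> norm_num
  obtain ⟨K, _, hKc, hKt⟩ := sample 2 𝓣 (fun τ hτ => (Finset.mem_powersetCard.1 hτ).2) ω hω n
    Finset.univ (by simp) k hk
  -- total weight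
  have htot : tot 𝓣 ω Finset.univ ≤ (Fintype.card ι * w.choose 2 : ℕ) := by
    have h1 : tot 𝓣 ω Finset.univ = ∑ r, P r *
        ((𝓣.filter (fun τ => ∃ l, τ ⊆ S r l)).card : ℝ) := by
      unfold tot
      rw [Finset.filter_true_of_mem (fun τ _ => Finset.subset_univ τ), Finset.sum_comm]
      refine Finset.sum_congr rfl fun r _ => ?_
      rw [← Finset.mul_sum, Finset.sum_ite, Finset.sum_const_zero, add_zero, Finset.sum_const,
        nsmul_eq_mul, mul_one]
    have h2 : ∀ r, ((𝓣.filter (fun τ => ∃ l, τ ⊆ S r l)).card : ℝ) ≤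
        (Fintype.card ι * w.choose 2 : ℕ) := by
      intro r
      have : (𝓣.filter (fun τ => ∃ l, τ ⊆ S r l)).card ≤ Fintype.card ι * w.choose 2 := by
        calc (𝓣.filter (fun τ => ∃ l, τ ⊆ S r l)).card
            ≤ (Finset.univ.biUnion fun l => (S r l).powersetCard 2).card := by
              apply Finset.card_le_card
              intro τ hτ
              rw [Finset.mem_filter] at hτ
              obtain ⟨h3, l, h4⟩ := hτ
              rw [Finset.mem_biUnion]
              exact ⟨l, Finset.mem_univ _, Finset.mem_powersetCard.2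
                ⟨h4, (Finset.mem_powersetCard.1 h3).2⟩⟩
          _ ≤ ∑ l : ι, ((S r l).powersetCard 2).card := Finset.card_biUnion_le
          _ ≤ ∑ _l : ι, w.choose 2 := by
              apply Finset.sum_le_sum
              intro l _
              rw [Finset.card_powersetCard]
              exact Nat.choose_le_choose 2 (hw r l)
          _ = _ := by rw [Finset.sum_const, smul_eq_mul, Finset.card_univ]
      exact_mod_cast this
    rw [h1]
    calc ∑ r, P r * ((𝓣.filter (fun τ => ∃ l, τ ⊆ S r l)).card : ℝ)
        ≤ ∑ r, P r * ((Fintype.card ι * w.choose 2 : ℕ) : ℝ) :=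
          Finset.sum_le_sum fun r _ => mul_le_mul_of_nonneg_left (h2 r) (hP0 r)
      _ = (Fintype.card ι * w.choose 2 : ℕ) := by rw [← Finset.sum_mul, hP1, one_mul]
  have hK12 : tot 𝓣 ω K ≤ 1 / 12 := by
    rcases Nat.eq_zero_or_pos (n.choose 2) with h0 | h0
    · have hn2 : n < 2 := by
        by_contra hcon
        exact absurd h0 (Nat.choose_pos (by omega)).ne'
      have : tot 𝓣 ω K = 0 := by
        unfold tot
        apply Finset.sum_eq_zero
        intro τ hτ
        rw [Finset.mem_filter] at hτ
        have h3 := (Finset.mem_powersetCard.1 hτ.1).2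
        have h4 := Finset.card_le_univ τ
        rw [Fintype.card_fin] at h4
        omega
      rw [this]
      norm_num
    · have hc0 : (0 : ℝ) < (n.choose 2 : ℝ) := by exact_mod_cast h0
      have hc1 : (12 : ℝ) * ((Fintype.card ι * w.choose 2 : ℕ) : ℝ) * (k.choose 2 : ℝ) ≤
          (n.choose 2 : ℝ) := by exact_mod_cast hcond
      have hc2 : (0 : ℝ) ≤ (k.choose 2 : ℝ) := Nat.cast_nonneg _
      have h5 : tot 𝓣 ω K * (n.choose 2 : ℝ) ≤ 1 / 12 * (n.choose 2 : ℝ) := by
        have := mul_le_mul_of_nonneg_right htot hc2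
        linarith
      exact le_of_mul_le_mul_right h5 hc0
  let good : Ω → Prop := fun r => ∀ l, (S r l ∩ K).card ≤ 1
  have hbad : ∑ r, (if good r then 0 else P r) ≤ 1 / 12 := by
    refine le_trans ?_ hK12
    unfold tot
    rw [Finset.sum_comm]
    apply Finset.sum_le_sum
    intro r _
    split_ifs with hg
    · apply Finset.sum_nonneg
      intro τ _
      apply mul_nonneg (hP0 r)
      split_ifs <;> norm_num
    · have : ∃ l, ¬ (S r l ∩ K).card ≤ 1 := by
        by_contra hcon
        push Not at hcon
        exact hg hcon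
      obtain ⟨l, hl⟩ := this
      obtain ⟨τ, hτ, hτc⟩ := Finset.exists_subset_card_eq (show 2 ≤ (S r l ∩ K).card by omega)
      have hmem : τ ∈ 𝓣.filter (fun τ => τ ⊆ K) := by
        rw [Finset.mem_filter, Finset.mem_powersetCard]
        exact ⟨⟨Finset.subset_univ _, hτc⟩, hτ.trans Finset.inter_subset_right⟩
      calc P r = P r * (if ∃ l, τ ⊆ S r l then 1 else 0) := by
            rw [if_pos ⟨l, hτ.trans Finset.inter_subset_left⟩, mul_one]
        _ ≤ _ := Finset.single_le_sum (f := fun τ => P r * (if ∃ l, τ ⊆ S r l then (1 : ℝ) else 0))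
            (fun τ _ => by
              apply mul_nonneg (hP0 r)
              split_ifs <;> norm_num) hmem
  have hvK : ∀ l, l < K.card → α * (v l : ℝ) + β < (v (l + 1) : ℝ) := fun l hl =>
    hv l (by omega)
  have hMK : v K.card ≤ M := by rw [hKc]; exact hM
  have hmono : ∀ a b, a ≤ b → b ≤ K.card → v a ≤ v b := fun a b h1 h2 => v_mono hα hβ hvK h1 h2
  refine rand_core (N := k) P hP0 hP1 q
    (fun r x => if good r then setCode (F r) v K (bitSet hKc x) else setCode (F r) v K ∅)
    Q hq ?_ (fun r a x => if good r then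
      decide (D r (setCode (F r) v K (bitSet hKc (suf x a))) ≤ α * (v a : ℝ) + β) else false)
    ?_ ?_
  · intro r x
    split_ifs
    · exact hQ r _ _ (mat_bounded (bitSet_sub hKc x) hmono hMK)
    · exact hQ r _ _ (mat_bounded (Finset.empty_subset K) hmono hMK)
  · intro r a x y he hpre
    split_ifs at he ⊢ with hg
    · have hx := setCode_add (hF r) v K hg (bitSet hKc (pref x a)) (bitSet hKc (suf x a))
        (bitSet_sub hKc _) (bitSet_sub hKc _) (bitSet_disj hKc x a)
      have hy := setCode_add (hF r) v K hg (bitSet hKc (pref y a)) (bitSet hKc (suf y a))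
        (bitSet_sub hKc _) (bitSet_sub hKc _) (bitSet_disj hKc y a)
      rw [bitSet_union] at hx hy
      have hp : pref x a = pref y a := by
        funext b
        unfold pref
        split_ifs with hb
        · exact hpre b hb
        · rfl
      rw [he, hy, hp] at hx
      have : setCode (F r) v K (bitSet hKc (suf y a)) = setCode (F r) v K (bitSet hKc (suf x a)) :=
        add_left_cancel hx
      rw [this]
    · rfl
  · intro a x
    have hn : 0 < n := lt_of_lt_of_le (Nat.pos_of_ne_zero (by
      intro h
      have := a.isLt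
      omega)) hk
    have hT := bitSet_sub hKc (suf x a)
    have h1 := hD _ _ (mat_bounded (m := m) (p := p) hT hmono hMK) _ (isMin_mat hn hT hmono i j)
    calc ∑ r, (if (if good r then
          decide (D r (setCode (F r) v K (bitSet hKc (suf x a))) ≤ α * (v a : ℝ) + β)
          else false) = x a then 0 else P r)
        ≤ ∑ r, ((if good r then 0 else P r) +
          (if ((v (minIdx K (bitSet hKc (suf x a))) : ℕ) : ℝ) ≤
            D r (∑ l, F r l (mat m v K (bitSet hKc (suf x a))) (fun _ _ => 0)) ∧
            D r (∑ l, F r l (mat m v K (bitSet hKc (suf x a))) (fun _ _ => 0)) ≤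
              α * ((v (minIdx K (bitSet hKc (suf x a))) : ℕ) : ℝ) + β then 0 else P r)) := by
          apply Finset.sum_le_sum
          intro r _
          by_cases hg : good r
          · simp only [hg, if_true, zero_add]
            by_cases hok : ((v (minIdx K (bitSet hKc (suf x a))) : ℕ) : ℝ) ≤
              D r (∑ l, F r l (mat m v K (bitSet hKc (suf x a))) (fun _ _ => 0)) ∧
              D r (∑ l, F r l (mat m v K (bitSet hKc (suf x a))) (fun _ _ => 0)) ≤
              α * ((v (minIdx K (bitSet hKc (suf x a))) : ℕ) : ℝ) + β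
            · rw [if_pos hok, if_pos]
              cases hxa : x a with
              | true =>
                rw [minIdx_suf_true hKc hxa] at hok
                exact decide_eq_true hok.2
              | false =>
                have h2 := minIdx_suf_false hKc hxa
                have h3 : minIdx K (bitSet hKc (suf x a)) ≤ K.card := by
                  unfold minIdx
                  split_ifs with h
                  · exact (rk_lt_card (hT (Finset.min'_mem _ h))).le
                  · exact le_rfl
                have h4 := v_lt hα hβ hvK (show (a : ℕ) < _ from h2) h3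
                apply decide_eq_false
                rw [not_le]
                exact h4.trans_le hok.1
            · rw [if_neg hok]
              split_ifs
              · exact hP0 r
              · exact le_rfl
          · simp only [hg, if_false]
            have h5 : (0 : ℝ) ≤ (if ((v (minIdx K (bitSet hKc (suf x a))) : ℕ) : ℝ) ≤
              D r (∑ l, F r l (mat m v K (bitSet hKc (suf x a))) (fun _ _ => 0)) ∧
              D r (∑ l, F r l (mat m v K (bitSet hKc (suf x a))) (fun _ _ => 0)) ≤
              α * ((v (minIdx K (bitSet hKc (suf x a))) : ℕ) : ℝ) + β then 0 else P r) := by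
              split_ifs
              · exact le_rfl
              · exact hP0 r
            have h6 : (if false = x a then (0 : ℝ) else P r) ≤ P r := by
              split_ifs
              · exact hP0 r
              · exact le_rfl
            linarith
      _ = ∑ r, (if good r then 0 else P r) + _ := Finset.sum_add_distrib
      _ ≤ 1 / 12 + 1 / 4 := add_le_add hbad h1
      _ = 1 / 3 := by norm_num

end Pool.Agent.J4.H83.LE
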