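import Mathlib
import Pool.Agent.J4.H83.LE.App

/-!
# Local encodings in vector spaces over prime fields
-/

set_option autoImplicit false

open Pool.Agent.N578.Enc

namespace Pool.Agent.J4.H83.LE

variable {n : ℕ} (q : ℕ) [hq : Fact q.Prime]

/-- functions which only depend on the trace on a set with at most `u` elements -/
def locGen (n u : ℕ) : Set (Finset (Fin n) → ZMod q) :=
  {h | ∃ S : Finset (Fin n), S.card ≤ u ∧ ∀ T, h T = h (T ∩ S)}

/-- sums of functions of traces on sets with at most `u` elements -/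
def IsLoc (n u : ℕ) : Submodule (ZMod q) (Finset (Fin n) → ZMod q) :=
  Submodule.span (ZMod q) (locGen q n u)

theorem isLoc_mono {u u' : ℕ} (h : u ≤ u') : IsLoc q n u ≤ IsLoc q n u' := by
  apply Submodule.span_mono
  rintro f ⟨S, hS, hf⟩
  exact ⟨S, hS.trans h, hf⟩

theorem isLoc_one (u : ℕ) : (1 : Finset (Fin n) → ZMod q) ∈ IsLoc q n u :=
  Submodule.subset_span ⟨∅, by simp, fun _ => rfl⟩

theorem isLoc_mul {u u' : ℕ} {f g : Finset (Fin n) → ZMod q} (hf : f ∈ IsLoc q n u)
    (hg : g ∈ IsLoc q n u') : f * g ∈ IsLoc q n (u + u') := by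
  have h1 : f * g ∈ IsLoc q n u * IsLoc q n u' := Submodule.mul_mem_mul hf hg
  unfold IsLoc at h1
  rw [Submodule.span_mul_span] at h1
  refine Submodule.span_mono ?_ h1
  rintro _ ⟨a, ⟨S, hS, ha⟩, b, ⟨S', hS', hb⟩, rfl⟩
  refine ⟨S ∪ S', (Finset.card_union_le _ _).trans (by omega), fun T => ?_⟩
  simp only [Pi.mul_apply]
  rw [ha T, hb T, ha (T ∩ (S ∪ S')), hb (T ∩ (S ∪ S'))]
  congr 2
  · ext x; simp only [Finset.mem_inter, Finset.mem_union]; tauto
  · ext x; simp only [Finset.mem_inter, Finset.mem_union]; tauto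

theorem isLoc_pow {u : ℕ} {f : Finset (Fin n) → ZMod q} (hf : f ∈ IsLoc q n u) (k : ℕ) :
    f ^ k ∈ IsLoc q n (k * u) := by
  induction k with
  | zero => simpa using isLoc_one q (n := n) 0
  | succ k ih =>
    rw [pow_succ]
    have := isLoc_mul q ih hf
    convert this using 2
    ring

theorem isLoc_prod {u d : ℕ} (f : Fin d → Finset (Fin n) → ZMod q)
    (hf : ∀ t, f t ∈ IsLoc q n u) : (∏ t, f t) ∈ IsLoc q n (d * u) := by
  induction d with
  | zero => simpa using isLoc_one q (n := n) 0
  | succ d ih =>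
    rw [Fin.prod_univ_castSucc]
    have := isLoc_mul q (ih (fun t => f t.castSucc) (fun t => hf _)) (hf (Fin.last d))
    convert this using 2
    ring

theorem isLoc_sum_zero {u : ℕ} (hu : u < n) {f : Finset (Fin n) → ZMod q}
    (hf : f ∈ IsLoc q n u) : ∑ T : Finset (Fin n), (-1 : ZMod q) ^ T.card * f T = 0 := by
  induction hf using Submodule.span_induction with
  | mem f hf =>
    obtain ⟨S, hS, hf⟩ := hf
    obtain ⟨a, ha⟩ : ∃ a, a ∉ S := by
      by_contra hcon
      push Not at hcon
      have : S = Finset.univ := Finset.eq_univ_iff_forall.2 hcon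
      rw [this, Finset.card_univ, Fintype.card_fin] at hS
      omega
    apply Finset.sum_involution (fun T _ => if a ∈ T then T.erase a else insert a T)
    · intro T _
      have hfe : f (if a ∈ T then T.erase a else insert a T) = f T := by
        rw [hf T, hf (if a ∈ T then T.erase a else insert a T)]
        congr 1
        ext x
        split_ifs with h
        · simp only [Finset.mem_inter, Finset.mem_erase]
          constructor
          · rintro ⟨⟨_, h1⟩, h2⟩; exact ⟨h1, h2⟩
          · rintro ⟨h1, h2⟩; exact ⟨⟨fun h3 => ha (h3 ▸ h2), h1⟩, h2⟩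
        · simp only [Finset.mem_inter, Finset.mem_insert]
          constructor
          · rintro ⟨h1 | h1, h2⟩
            · exact absurd h2 (h1 ▸ ha)
            · exact ⟨h1, h2⟩
          · rintro ⟨h1, h2⟩; exact ⟨Or.inr h1, h2⟩
      rw [hfe]
      split_ifs with h
      · rw [Finset.card_erase_of_mem h]
        obtain ⟨c, hc⟩ : ∃ c, T.card = c + 1 :=
          ⟨T.card - 1, by have := Finset.card_pos.2 ⟨a, h⟩; omega⟩
        rw [hc, Nat.add_sub_cancel, pow_succ]
        ring
      · rw [Finset.card_insert_of_notMem h, pow_succ]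
        ring
    · intro T _ _ h
      split_ifs at h with h1
      · exact (Finset.notMem_erase a T) (h.symm ▸ h1)
      · exact h1 (h ▸ Finset.mem_insert_self a T)
    · intro T _
      split_ifs with h1 h2 h2
      · exact absurd h2 (Finset.notMem_erase a T)
      · exact Finset.insert_erase h1
      · exact Finset.erase_insert h1
      · exact absurd (Finset.mem_insert_self a T) h2
    · intro T _
      exact Finset.mem_univ (if a ∈ T then T.erase a else insert a T)
  | zero => simp
  | add f g _ _ hf hg =>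
    simp only [Pi.add_apply, mul_add, Finset.sum_add_distrib, hf, hg, add_zero]
  | smul c f _ hf =>
    simp only [Pi.smul_apply, smul_eq_mul]
    have : ∀ T : Finset (Fin n), (-1 : ZMod q) ^ T.card * (c * f T) =
        c * ((-1 : ZMod q) ^ T.card * f T) := fun T => by ring
    simp_rw [this]
    rw [← Finset.mul_sum, hf, mul_zero]

/-- **Local maps to `(ZMod q) ^ d` which separate the empty set.** -/
theorem pgroup_core {d w : ℕ} (f : Finset (Fin n) → (Fin d → ZMod q))
    (hf : ∀ t, (fun T => f T t) ∈ IsLoc q n w) (hsep : ∀ T, f T = f ∅ → T = ∅) :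
    n ≤ w * d * (q - 1) := by
  by_contra hcon
  push Not at hcon
  have h0 : ∀ t, (fun T => f T t - f ∅ t) ∈ IsLoc q n w := by
    intro t
    have h1 : (fun T => f T t - f ∅ t) = (fun T => f T t) - (f ∅ t) • (1 : Finset (Fin n) → ZMod q) := by
      funext T
      simp
    rw [h1]
    exact Submodule.sub_mem _ (hf t) (Submodule.smul_mem _ _ (isLoc_one q w))
  have h1 : (∏ t : Fin d, ((1 : Finset (Fin n) → ZMod q) - (fun T => f T t - f ∅ t) ^ (q - 1))) ∈
      IsLoc q n (d * ((q - 1) * w)) := by
    apply isLoc_prod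
    intro t
    exact Submodule.sub_mem _ (isLoc_one q _) (isLoc_pow q (h0 t) _)
  have hlt : d * ((q - 1) * w) < n := by
    calc d * ((q - 1) * w) = w * d * (q - 1) := by ring
      _ < n := hcon
  have h2 := isLoc_sum_zero q hlt h1
  have h3 : ∀ T : Finset (Fin n), (∏ t : Fin d, ((1 : Finset (Fin n) → ZMod q) -
      (fun T => f T t - f ∅ t) ^ (q - 1))) T = if T = ∅ then 1 else 0 := by
    intro T
    rw [Finset.prod_apply]
    simp only [Pi.sub_apply, Pi.one_apply, Pi.pow_apply]
    split_ifs with hT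
    · subst hT
      apply Finset.prod_eq_one
      intro t _
      rw [sub_self, zero_pow, sub_zero]
      have := hq.out.two_le
      omega
    · have h4 : f T ≠ f ∅ := fun h => hT (hsep T h)
      obtain ⟨t, ht⟩ := Function.ne_iff.1 h4
      apply Finset.prod_eq_zero (Finset.mem_univ t)
      rw [ZMod.pow_card_sub_one_eq_one (sub_ne_zero.2 ht), sub_self]
  simp_rw [h3] at h2
  rw [Finset.sum_eq_single ∅] at h2
  · simp at h2
  · intro T _ hT
    simp [hT]
  · intro h
    exact absurd (Finset.mem_univ _) h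

variable {m p : ℕ}

/-- **Local encodings in `(ZMod q) ^ d`.** -/
theorem pgroup_encoding {d : ℕ} {ι : Type*} [Fintype ι] {S : ι → Finset (Fin n)}
    {F : ι → (Fin m → Fin n → ℕ) → (Fin n → Fin p → ℕ) → (Fin d → ZMod q)}
    (hF : LocalTerms S F)
    {M w : ℕ} {i : Fin m} {j : Fin p}
    {α β : ℝ} (hα : 1 ≤ α) (hβ : 0 ≤ β) (D : (Fin d → ZMod q) → ℝ)
    (hD : ∀ A B, Bounded M A B → ∀ c, IsMinPlus A B i j c →
      (c : ℝ) ≤ D (∑ l, F l A B) ∧ D (∑ l, F l A B) ≤ α * c + β)
    (hw : ∀ l, (S l).card ≤ w) (hsc : Scales α β 1 M) :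
    n ≤ w * d * (q - 1) := by
  rcases Nat.eq_zero_or_pos n with rfl | hn
  · exact Nat.zero_le _
  obtain ⟨v, hv, hM⟩ := hsc
  have hv01 : α * (v 0 : ℝ) + β < v 1 := hv 0 (by norm_num)
  have hle : v 0 ≤ v 1 := v_mono hα hβ hv (by norm_num) le_rfl
  let A : Finset (Fin n) → Fin m → Fin n → ℕ := fun T _ k => if k ∈ T then v 0 else v 1
  let B : Fin n → Fin p → ℕ := fun _ _ => 0
  have hb : ∀ T, Bounded M (A T) B := by
    intro T
    refine ⟨fun _ k => ?_, fun _ _ => Nat.zero_le _⟩
    simp only [A]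
    split_ifs
    · exact hle.trans hM
    · exact hM
  have hminE : IsMinPlus (A ∅) B i j (v 1) := by
    refine ⟨⟨⟨0, hn⟩, by simp [A, B]⟩, ?_⟩
    rintro _ ⟨k, rfl⟩
    simp [A, B]
  have hminT : ∀ T : Finset (Fin n), T ≠ ∅ → IsMinPlus (A T) B i j (v 0) := by
    intro T hT
    obtain ⟨k, hk⟩ := Finset.nonempty_iff_ne_empty.2 hT
    refine ⟨⟨k, by simp [A, B, hk]⟩, ?_⟩
    rintro _ ⟨k', rfl⟩
    simp only [A, B, add_zero]
    split_ifs
    · exact le_rfl
    · exact hle
  refine pgroup_core q (fun T => ∑ l, F l (A T) B) (w := w) ?_ ?_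
  · intro t
    have h1 : (fun T => (∑ l, F l (A T) B) t) =
        ∑ l, (fun T => F l (A T) B t) := by
      funext T
      rw [Finset.sum_apply, Finset.sum_apply]
    rw [h1]
    apply Submodule.sum_mem
    intro l _
    apply Submodule.subset_span
    refine ⟨S l, hw l, fun T => ?_⟩
    have h2 : F l (A T) B = F l (A (T ∩ S l)) B := by
      apply hF
      intro i' k hk
      simp only [A, Finset.mem_inter, hk, and_true]
    simp only [h2]
  · intro T hT
    by_contra hne
    have h3 := hD _ _ (hb T) _ (hminT T hne)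
    have h4 := hD _ _ (hb ∅) _ hminE
    rw [hT] at h3
    linarith [h3.2, h4.1]

end Pool.Agent.J4.H83.LE
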